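import Mathlib

/-!
# Second-order arithmetic: language, models, `RCA₀`, arithmetical comprehension and `EXT(ω*)`

The definitions used in the statement of the hand-in for MP_9b0a74_lc.
-/

namespace Pool.Agent.Helper42.SOA

/-- Number terms of the language of second-order arithmetic. -/
inductive Term : Type
  | var : ℕ → Term
  | zero : Term
  | one : Term
  | add : Term → Term → Term
  | mul : Term → Term → Term
  deriving Countable

/-- Formulas of the language of second-order arithmetic.  `mem t i` says that the number `t` is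
an element of the set `Xᵢ`; `all i` quantifies the number variable `xᵢ`, `allSet i` the set
variable `Xᵢ`. -/
inductive Form : Type
  | eq : Term → Term → Form
  | lt : Term → Term → Form
  | mem : Term → ℕ → Form
  | neg : Form → Form
  | and : Form → Form → Form
  | all : ℕ → Form → Form
  | allSet : ℕ → Form → Form
  deriving Countable

/-- Implication. -/
def Form.imp (φ ψ : Form) : Form := .neg (.and φ (.neg ψ))

/-- Number existence. -/
def Form.ex (i : ℕ) (φ : Form) : Form := .neg (.all i (.neg φ))

/-- The number variable `xᵢ` occurs in the term. -/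
def Term.Occurs (i : ℕ) : Term → Prop
  | .var j => j = i
  | .zero => False
  | .one => False
  | .add s t => s.Occurs i ∨ t.Occurs i
  | .mul s t => s.Occurs i ∨ t.Occurs i

/-- Bounded quantifier formulas (`Δ⁰₀`). -/
inductive Form.IsBounded : Form → Prop
  | eq (s t : Term) : IsBounded (.eq s t)
  | lt (s t : Term) : IsBounded (.lt s t)
  | mem (t : Term) (i : ℕ) : IsBounded (.mem t i)
  | neg {φ : Form} : IsBounded φ → IsBounded (.neg φ)
  | and {φ ψ : Form} : IsBounded φ → IsBounded ψ → IsBounded (.and φ ψ)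
  | ball {φ : Form} (i : ℕ) (t : Term) : ¬ t.Occurs i → IsBounded φ →
      IsBounded (.all i (.imp (.lt (.var i) t) φ))

/-- Arithmetical formulas: no set quantifiers (set parameters are allowed). -/
def Form.IsArithmetical : Form → Prop
  | .eq _ _ => True
  | .lt _ _ => True
  | .mem _ _ => True
  | .neg φ => φ.IsArithmetical
  | .and φ ψ => φ.IsArithmetical ∧ ψ.IsArithmetical
  | .all _ φ => φ.IsArithmetical
  | .allSet _ _ => False

/-- A structure for the language of second-order arithmetic: a number part and a family of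
subsets of it over which the set variables range. -/
structure Model where
  N : Type
  zero : N
  one : N
  add : N → N → N
  mul : N → N → N
  lt : N → N → Prop
  Sets : Set (Set N)

namespace Model

variable (M : Model)

/-- Value of a term under an assignment of the number variables. -/
def val (e : ℕ → M.N) : Term → M.N
  | .var i => e i
  | .zero => M.zero
  | .one => M.one
  | .add s t => M.add (val e s) (val e t)
  | .mul s t => M.mul (val e s) (val e t)

/-- Satisfaction, with `e` and `E` the assignments of the number and set variables. -/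
def Sat : (ℕ → M.N) → (ℕ → Set M.N) → Form → Prop
  | e, _, .eq s t => M.val e s = M.val e t
  | e, _, .lt s t => M.lt (M.val e s) (M.val e t)
  | e, E, .mem t i => M.val e t ∈ E i
  | e, E, .neg φ => ¬ Sat e E φ
  | e, E, .and φ ψ => Sat e E φ ∧ Sat e E ψ
  | e, E, .all i φ => ∀ a : M.N, Sat (Function.update e i a) E φ
  | e, E, .allSet i φ => ∀ X ∈ M.Sets, Sat e (Function.update E i X) φ

/-- `RCA₀`: the basic axioms, `Σ⁰₁` induction and `Δ⁰₁` comprehension (with parameters).  A
`Σ⁰₁` formula is `∃ xⱼ θ` and a `Π⁰₁` formula `∀ xₖ ψ` with `θ`, `ψ` bounded. -/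
structure RCA0 : Prop where
  succ_ne_zero : ∀ a, M.add a M.one ≠ M.zero
  succ_inj : ∀ a b, M.add a M.one = M.add b M.one → a = b
  add_zero : ∀ a, M.add a M.zero = a
  add_succ : ∀ a b, M.add a (M.add b M.one) = M.add (M.add a b) M.one
  mul_zero : ∀ a, M.mul a M.zero = M.zero
  mul_succ : ∀ a b, M.mul a (M.add b M.one) = M.add (M.mul a b) a
  not_lt_zero : ∀ a, ¬ M.lt a M.zero
  lt_succ : ∀ a b, M.lt a (M.add b M.one) ↔ (M.lt a b ∨ a = b)
  sigma1_induction : ∀ θ : Form, θ.IsBounded → ∀ (i j : ℕ) (e : ℕ → M.N) (E : ℕ → Set M.N),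
    (∀ k, E k ∈ M.Sets) →
    M.Sat (Function.update e i M.zero) E (.ex j θ) →
    (∀ a, M.Sat (Function.update e i a) E (.ex j θ) →
      M.Sat (Function.update e i (M.add a M.one)) E (.ex j θ)) →
    ∀ a, M.Sat (Function.update e i a) E (.ex j θ)
  delta1_comprehension : ∀ θ ψ : Form, θ.IsBounded → ψ.IsBounded →
    ∀ (i j k : ℕ) (e : ℕ → M.N) (E : ℕ → Set M.N), (∀ k, E k ∈ M.Sets) →
    (∀ a, M.Sat (Function.update e i a) E (.ex j θ) ↔
      M.Sat (Function.update e i a) E (.all k ψ)) →
    ∃ X ∈ M.Sets, ∀ a, a ∈ X ↔ M.Sat (Function.update e i a) E (.ex j θ)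

/-- The scheme of arithmetical comprehension (with parameters).  `ACA₀` is `RCA₀` together with
this scheme. -/
def ArithmeticalComprehension : Prop :=
  ∀ φ : Form, φ.IsArithmetical → ∀ (i : ℕ) (e : ℕ → M.N) (E : ℕ → Set M.N),
    (∀ k, E k ∈ M.Sets) →
    ∃ X ∈ M.Sets, ∀ a, a ∈ X ↔ M.Sat (Function.update e i a) E φ

/-- The pairing function `(a, b) ↦ (a + b)² + a` of second-order arithmetic. -/
def pair (a b : M.N) : M.N := M.add (M.mul (M.add a b) (M.add a b)) a

/-- In `M`: `R` is a (reflexive) partial order on the set `X`, given as a set of pairs. -/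
structure IsPartialOrderOn (X R : Set M.N) : Prop where
  sub : ∀ c ∈ R, ∃ a ∈ X, ∃ b ∈ X, c = M.pair a b
  refl : ∀ a ∈ X, M.pair a a ∈ R
  antisymm : ∀ a b, M.pair a b ∈ R → M.pair b a ∈ R → a = b
  trans : ∀ a b c, M.pair a b ∈ R → M.pair b c ∈ R → M.pair a c ∈ R

/-- In `M`: the order `R` on `X` contains a suborder of type `ω*`, i.e. there is a function `F`
from the numbers to `X`, given as a set of pairs, which is strictly descending. -/
def HasOmegaStar (X R : Set M.N) : Prop :=
  ∃ F ∈ M.Sets, (∀ c ∈ F, ∃ i y, c = M.pair i y) ∧ (∀ i, ∃! y, M.pair i y ∈ F) ∧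
    (∀ i y, M.pair i y ∈ F → y ∈ X) ∧
    ∀ i j y z, M.lt i j → M.pair i y ∈ F → M.pair j z ∈ F → M.pair z y ∈ R ∧ z ≠ y

/-- `EXT(ω*)`: every (countable) partial order without a suborder of type `ω*` has a linear
extension without a suborder of type `ω*`. -/
def EXTOmegaStar : Prop :=
  ∀ X ∈ M.Sets, ∀ R ∈ M.Sets, M.IsPartialOrderOn X R → ¬ M.HasOmegaStar X R →
    ∃ L ∈ M.Sets, M.IsPartialOrderOn X L ∧
      (∀ a ∈ X, ∀ b ∈ X, M.pair a b ∈ L ∨ M.pair b a ∈ L) ∧
      (∀ a b, M.pair a b ∈ R → M.pair a b ∈ L) ∧ ¬ M.HasOmegaStar X L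

end Model

end Pool.Agent.Helper42.SOA
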