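import Mathlib
import Pool.Agent.Helper42.Ext.SOA
import Pool.Agent.Helper88.EXT.Sig

/-! `ω`-models given by `Σ`-classes (for MP_9b0a74_lc). -/

namespace Pool.Agent.Helper42.SOA

/-- The `ω`-model with the family `𝒮` of sets of natural numbers. -/
@[reducible] def omegaModel (𝒮 : Set (Set ℕ)) : Model where
  N := ℕ
  zero := 0
  one := 1
  add := fun a b => a + b
  mul := fun a b => a * b
  lt := fun a b => a < b
  Sets := 𝒮

end Pool.Agent.Helper42.SOA

namespace Pool.Agent.Helper42.Ext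

open Pool.Agent.Helper42.SOA EXT88

/-- the sets of the model -/
def DSets (𝓜 : Set (ℕ → Prop)) : Set (Set ℕ) := {X | Dl 𝓜 (fun n : ℕ => n ∈ X)}

variable {𝓜 : Set (ℕ → Prop)}

theorem primrec_val (t : Term) {α : Type} [Primcodable α] (ρ : α → ℕ → ℕ)
    (hρ : ∀ i, Primrec (fun a => ρ a i)) :
    Primrec (fun a => (omegaModel (DSets 𝓜)).val (ρ a) t : α → ℕ) := by
  induction t with
  | var i => exact hρ i
  | zero => exact Primrec.const 0
  | one => exact Primrec.const 1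
  | add s t hs ht => exact Primrec.nat_add.comp hs ht
  | mul s t hs ht => exact Primrec.nat_mul.comp hs ht

theorem val_update' (M : Model) (e : ℕ → M.N) (i : ℕ) (a : M.N) {t : Term} (ht : ¬ t.Occurs i) :
    M.val (Function.update e i a) t = M.val e t := by
  induction t with
  | var j =>
    simp only [Term.Occurs] at ht
    simp [Model.val, Function.update_of_ne ht]
  | zero => rfl
  | one => rfl
  | add s t hs ht' =>
    simp only [Term.Occurs, not_or] at ht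
    simp only [Model.val]
    rw [hs ht.1, ht' ht.2]
  | mul s t hs ht' =>
    simp only [Term.Occurs, not_or] at ht
    simp only [Model.val]
    rw [hs ht.1, ht' ht.2]

theorem dl_sat (h𝓜 : IsSig 𝓜) {φ : Form} (hφ : φ.IsBounded) (E : ℕ → Set ℕ)
    (hE : ∀ k, E k ∈ DSets 𝓜) : ∀ {α : Type} [Primcodable α] (ρ : α → ℕ → ℕ)
    (_ : ∀ i, Primrec (fun a => ρ a i)),
    Dl 𝓜 (fun a : α => (omegaModel (DSets 𝓜)).Sat (ρ a) E φ) := by
  induction hφ with
  | eq s t =>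
    intro α _ ρ hρ
    exact h𝓜.dprim (Primrec.eq.comp (primrec_val s ρ hρ) (primrec_val t ρ hρ))
  | lt s t =>
    intro α _ ρ hρ
    exact h𝓜.dprim (Primrec.nat_lt.comp (primrec_val s ρ hρ) (primrec_val t ρ hρ))
  | mem t i =>
    intro α _ ρ hρ
    exact h𝓜.dcomp (p := fun n : ℕ => n ∈ E i) (hE i) (primrec_val t ρ hρ)
  | neg hφ ih =>
    intro α _ ρ hρ
    exact (ih ρ hρ).not
  | and hφ hψ ih1 ih2 =>
    intro α _ ρ hρ
    exact h𝓜.dand (ih1 ρ hρ) (ih2 ρ hρ)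
  | @ball φ i t ht hφ ih =>
    intro α _ ρ hρ
    have h1 : Dl 𝓜 (fun x : α × ℕ =>
        (omegaModel (DSets 𝓜)).Sat (Function.update (ρ x.1) i x.2) E φ) := by
      refine ih (fun x : α × ℕ => Function.update (ρ x.1) i x.2) (fun j => ?_)
      by_cases hj : j = i
      · subst hj
        simpa using Primrec.snd
      · simpa [Function.update_of_ne hj] using (hρ j).comp Primrec.fst
    have h2 := h𝓜.dball_lt (p := fun (a : α) (b : ℕ) =>
      (omegaModel (DSets 𝓜)).Sat (Function.update (ρ a) i b) E φ) h1 (primrec_val (𝓜 := 𝓜) t ρ hρ)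
    refine h2.congr fun a => ?_
    simp only [Model.Sat, Form.imp, not_and, not_not]
    constructor
    · intro h b hb
      apply h b
      rw [val_update' _ _ _ _ ht] at hb
      simpa [Model.val] using hb
    · intro h b hb
      apply h b
      rw [val_update' _ _ _ _ ht]
      simpa [Model.val] using hb

theorem sat_ex' (M : Model) (e : ℕ → M.N) (E : ℕ → Set M.N) (j : ℕ) (θ : Form) :
    M.Sat e E (.ex j θ) ↔ ∃ b, M.Sat (Function.update e j b) E θ := by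
  simp [Form.ex, Model.Sat]

theorem primrec_two (e : ℕ → ℕ) (i j : ℕ) : ∀ k, Primrec (fun x : ℕ × ℕ =>
    Function.update (Function.update e i x.1) j x.2 k) := by
  intro k
  by_cases hj : k = j
  · subst hj
    simpa using Primrec.snd
  · simp only [Function.update_of_ne hj]
    by_cases hi : k = i
    · subst hi
      simpa using Primrec.fst
    · simp only [Function.update_of_ne hi]
      exact Primrec.const _

theorem omega_rca0 (h𝓜 : IsSig 𝓜) : (omegaModel (DSets 𝓜)).RCA0 where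
  succ_ne_zero a := Nat.succ_ne_zero a
  succ_inj a b h := Nat.succ_injective h
  add_zero a := rfl
  add_succ a b := rfl
  mul_zero a := rfl
  mul_succ a b := Nat.mul_succ a b
  not_lt_zero a := Nat.not_lt_zero a
  lt_succ a b := Nat.lt_succ_iff_lt_or_eq
  sigma1_induction θ _ i j e E _ h0 hs a := by
    induction a with
    | zero => exact h0
    | succ a ih => exact hs a ih
  delta1_comprehension θ ψ hθ hψ i j k e E hE hiff := by
    refine ⟨{a | (omegaModel (DSets 𝓜)).Sat (Function.update e i a) E (.ex j θ)}, ?_,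
      fun a => Iff.rfl⟩
    show Dl 𝓜 _
    constructor
    · refine (h𝓜.ex' (p := fun a b => (omegaModel (DSets 𝓜)).Sat
        (Function.update (Function.update e i a) j b) E θ)
        (dl_sat h𝓜 hθ E hE _ (primrec_two e i j)).1).congr fun a => ?_
      exact (sat_ex' (omegaModel (DSets 𝓜)) (Function.update e i a) E j θ).symm
    · refine (h𝓜.ex' (p := fun a b => ¬ (omegaModel (DSets 𝓜)).Sat
        (Function.update (Function.update e i a) k b) E ψ)
        (dl_sat h𝓜 hψ E hE _ (primrec_two e i k)).2).congr fun a => ?_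
      show _ ↔ ¬ (omegaModel (DSets 𝓜)).Sat (Function.update e i a) E (.ex j θ)
      rw [hiff a]
      simp only [Model.Sat, not_forall]

/-! ### pairs -/

/-- the pairing polynomial -/
def pr (a b : ℕ) : ℕ := (a + b) * (a + b) + a

theorem pr_inj {a b c d : ℕ} (h : pr a b = pr c d) : a = c ∧ b = d := by
  unfold pr at h
  have h1 : a + b = c + d := by
    rcases lt_trichotomy (a + b) (c + d) with h2 | h2 | h2
    · exfalso; nlinarith
    · exact h2
    · exfalso; nlinarith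
  rw [h1] at h
  omega

theorem le_pr_left (a b : ℕ) : a ≤ pr a b := by unfold pr; omega

theorem le_pr_right (a b : ℕ) : b ≤ pr a b := by unfold pr; nlinarith

theorem primrec_pr : Primrec (fun x : ℕ × ℕ => pr x.1 x.2) := by
  unfold pr
  exact Primrec.nat_add.comp (Primrec.nat_mul.comp (Primrec.nat_add.comp Primrec.fst Primrec.snd)
    (Primrec.nat_add.comp Primrec.fst Primrec.snd)) Primrec.fst

/-- coding a binary relation as a set of pairs -/
def relSet (Q : ℕ → ℕ → Prop) : Set ℕ := {c | ∃ a b, c = pr a b ∧ Q a b}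

theorem mem_relSet {Q : ℕ → ℕ → Prop} {a b : ℕ} : pr a b ∈ relSet Q ↔ Q a b := by
  constructor
  · rintro ⟨c, d, h, hQ⟩
    obtain ⟨rfl, rfl⟩ := pr_inj h
    exact hQ
  · intro h
    exact ⟨a, b, rfl, h⟩

theorem relSet_mem (h𝓜 : IsSig 𝓜) {Q : ℕ → ℕ → Prop} (hQ : Dl 𝓜 (fun x : ℕ × ℕ => Q x.1 x.2)) :
    relSet Q ∈ DSets 𝓜 := by
  have h1 : Dl 𝓜 (fun x : (ℕ × ℕ) × ℕ => x.1.1 = pr x.1.2 x.2 ∧ Q x.1.2 x.2) := by
    refine h𝓜.dand (h𝓜.dprim ?_) ?_
    · exact Primrec.eq.comp (Primrec.fst.comp Primrec.fst)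
        (primrec_pr.comp (Primrec.pair (Primrec.snd.comp Primrec.fst) Primrec.snd))
    · exact h𝓜.dcomp (p := fun x : ℕ × ℕ => Q x.1 x.2) hQ
        (Primrec.pair (Primrec.snd.comp Primrec.fst) Primrec.snd)
  have h2 := h𝓜.dex_lt (p := fun (x : ℕ × ℕ) (b : ℕ) => x.1 = pr x.2 b ∧ Q x.2 b)
    (k := fun x : ℕ × ℕ => x.1 + 1) h1 (Primrec.succ.comp Primrec.fst)
  have h3 := h𝓜.dex_lt (p := fun (c : ℕ) (a : ℕ) => ∃ b < c + 1, c = pr a b ∧ Q a b)
    (k := fun c : ℕ => c + 1) h2 Primrec.succ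
  refine h3.congr fun c => ?_
  constructor
  · rintro ⟨a, -, b, -, h⟩
    exact ⟨a, b, h⟩
  · rintro ⟨a, b, rfl, h⟩
    exact ⟨a, Nat.lt_succ_of_le (le_pr_left a b), b, Nat.lt_succ_of_le (le_pr_right a b), rfl, h⟩

theorem dl_rel (h𝓜 : IsSig 𝓜) {R : Set ℕ} (hR : R ∈ DSets 𝓜) :
    Dl 𝓜 (fun x : ℕ × ℕ => pr x.1 x.2 ∈ R) :=
  h𝓜.dcomp (p := fun n : ℕ => n ∈ R) hR primrec_pr

theorem omega_pair (𝒮 : Set (Set ℕ)) (a b : ℕ) : (omegaModel 𝒮).pair a b = pr a b := rfl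

/-- a descending function gives a suborder of type `ω*` -/
theorem hasOmegaStar_of (h𝓜 : IsSig 𝓜) {X R : Set ℕ}
    (hpo : (omegaModel (DSets 𝓜)).IsPartialOrderOn X R) {f : ℕ → ℕ}
    (hf : Dl 𝓜 (fun x : ℕ × ℕ => f x.1 = x.2)) (hX : ∀ i, f i ∈ X)
    (hd : ∀ i, pr (f (i + 1)) (f i) ∈ R ∧ f (i + 1) ≠ f i) :
    (omegaModel (DSets 𝓜)).HasOmegaStar X R := by
  have hdesc : ∀ i j, i < j → pr (f j) (f i) ∈ R ∧ f j ≠ f i := by
    intro i j hij
    induction j, hij using Nat.le_induction with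
    | base => exact hd i
    | succ j _ ih =>
      obtain ⟨h1, h2⟩ := hd j
      refine ⟨hpo.trans _ _ _ h1 ih.1, fun he => ?_⟩
      rw [he] at h1
      exact ih.2 (hpo.antisymm _ _ ih.1 h1)
  refine ⟨relSet (fun i y => f i = y), relSet_mem h𝓜 hf, ?_, ?_, ?_, ?_⟩
  · rintro c ⟨i, y, rfl, -⟩
    exact ⟨i, y, rfl⟩
  · intro i
    refine ⟨f i, mem_relSet.mpr rfl, fun y hy => ?_⟩
    exact (mem_relSet.mp hy).symm
  · intro i y hy
    rw [← mem_relSet.mp hy]
    exact hX i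
  · intro i j y z hij hy hz
    have h1 : f i = y := (mem_relSet (Q := fun i y => f i = y)).mp hy
    have h2 : f j = z := (mem_relSet (Q := fun i y => f i = y)).mp hz
    subst h1 h2
    exact hdesc i j hij

/-- a suborder of type `ω*` gives a descending function -/
theorem of_hasOmegaStar (h𝓜 : IsSig 𝓜) {X R : Set ℕ}
    (h : (omegaModel (DSets 𝓜)).HasOmegaStar X R) :
    ∃ f : ℕ → ℕ, Dl 𝓜 (fun x : ℕ × ℕ => f x.1 = x.2) ∧ (∀ i, f i ∈ X) ∧
      ∀ i, pr (f (i + 1)) (f i) ∈ R ∧ f (i + 1) ≠ f i := by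
  obtain ⟨F, hF, -, h2, h3, h4⟩ := h
  choose f hf hf' using h2
  refine ⟨f, ?_, fun i => h3 i _ (hf i), fun i => h4 i (i + 1) _ _ (Nat.lt_succ_self i) (hf i)
    (hf (i + 1))⟩
  refine (dl_rel h𝓜 hF).congr fun x => ?_
  constructor
  · intro h
    exact (hf' x.1 x.2 h).symm
  · intro h
    rw [← h]
    exact hf x.1

/-- the core property gives `EXT(ω*)` -/
theorem omega_ext (h𝓜 : IsSig 𝓜)
    (hcore : ∀ (X : ℕ → Prop) (P : ℕ → ℕ → Prop), Dl 𝓜 X → Dl 𝓜 (fun x : ℕ × ℕ => P x.1 x.2) →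
      ((∀ x, X x → ¬ P x x) ∧ ∀ x y z, X x → X y → X z → P x y → P y z → P x z) →
      (∃ f : ℕ → ℕ, Dl 𝓜 (fun x : ℕ × ℕ => f x.1 = x.2) ∧ (∀ i, X (f i)) ∧
        ∀ i, P (f (i + 1)) (f i)) ∨
      (∃ L : ℕ → ℕ → Prop, Dl 𝓜 (fun x : ℕ × ℕ => L x.1 x.2) ∧
        ((∀ x, X x → ¬ L x x) ∧ ∀ x y z, X x → X y → X z → L x y → L y z → L x z) ∧
        (∀ x y, X x → X y → x ≠ y → L x y ∨ L y x) ∧
        (∀ x y, X x → X y → P x y → L x y) ∧
        ¬ ∃ f : ℕ → ℕ, Dl 𝓜 (fun x : ℕ × ℕ => f x.1 = x.2) ∧ (∀ i, X (f i)) ∧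
          ∀ i, L (f (i + 1)) (f i))) :
    (omegaModel (DSets 𝓜)).EXTOmegaStar := by
  intro X hX R hR hpo hno
  have hdP : Dl 𝓜 (fun x : ℕ × ℕ => pr x.1 x.2 ∈ R ∧ x.1 ≠ x.2) :=
    h𝓜.dand (dl_rel h𝓜 hR) (h𝓜.dprim (Primrec.eq.comp Primrec.fst Primrec.snd).not)
  rcases hcore (fun n => n ∈ X) (fun a b => pr a b ∈ R ∧ a ≠ b) hX hdP
    ⟨fun x _ h => h.2 rfl, by
      rintro x y z _ _ _ ⟨h1, h1'⟩ ⟨h2, h2'⟩
      refine ⟨hpo.trans _ _ _ h1 h2, fun he => ?_⟩
      subst he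
      exact h1' (hpo.antisymm _ _ h1 h2)⟩ with ⟨f, hf, hfX, hfd⟩ | ⟨L, hL, ⟨hirr, htr⟩, htot, hext, hnd⟩
  · exact absurd (hasOmegaStar_of h𝓜 hpo hf hfX hfd) hno
  · have hdL : Dl 𝓜 (fun x : ℕ × ℕ => (x.1 ∈ X ∧ x.2 ∈ X) ∧ (x.1 = x.2 ∨ L x.1 x.2)) := by
      refine h𝓜.dand (h𝓜.dand ?_ ?_) (h𝓜.dor ?_ hL)
      · exact h𝓜.dcomp (p := fun n : ℕ => n ∈ X) hX Primrec.fst
      · exact h𝓜.dcomp (p := fun n : ℕ => n ∈ X) hX Primrec.snd
      · exact h𝓜.dprim (Primrec.eq.comp Primrec.fst Primrec.snd)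
    refine ⟨relSet (fun a b => (a ∈ X ∧ b ∈ X) ∧ (a = b ∨ L a b)), relSet_mem h𝓜 hdL,
      ?_, ?_, ?_, ?_⟩
    · refine ⟨?_, ?_, ?_, ?_⟩
      · rintro c ⟨a, b, rfl, ⟨ha, hb⟩, -⟩
        exact ⟨a, ha, b, hb, rfl⟩
      · intro a ha
        exact mem_relSet.mpr ⟨⟨ha, ha⟩, Or.inl rfl⟩
      · intro a b h1 h2
        obtain ⟨⟨ha, hb⟩, h1⟩ := mem_relSet.mp h1
        obtain ⟨-, h2⟩ := mem_relSet.mp h2
        rcases h1 with h1 | h1
        · exact h1
        · rcases h2 with h2 | h2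
          · exact h2.symm
          · exact absurd (htr _ _ _ ha hb ha h1 h2) (hirr a ha)
      · intro a b c h1 h2
        obtain ⟨⟨ha, hb⟩, h1⟩ := mem_relSet.mp h1
        obtain ⟨⟨-, hc⟩, h2⟩ := mem_relSet.mp h2
        refine mem_relSet.mpr ⟨⟨ha, hc⟩, ?_⟩
        rcases h1 with h1 | h1
        · rw [h1]; exact h2
        · rcases h2 with h2 | h2
          · rw [← h2]; exact Or.inr h1
          · exact Or.inr (htr _ _ _ ha hb hc h1 h2)
    · intro a ha b hb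
      by_cases hab : a = b
      · exact Or.inl (mem_relSet.mpr ⟨⟨ha, hb⟩, Or.inl hab⟩)
      · rcases htot a b ha hb hab with h | h
        · exact Or.inl (mem_relSet.mpr ⟨⟨ha, hb⟩, Or.inr h⟩)
        · exact Or.inr (mem_relSet.mpr ⟨⟨hb, ha⟩, Or.inr h⟩)
    · intro a b hab
      obtain ⟨a', ha', b', hb', he⟩ := hpo.sub _ hab
      obtain ⟨rfl, rfl⟩ := pr_inj he
      refine mem_relSet.mpr ⟨⟨ha', hb'⟩, ?_⟩
      by_cases heq : a = b
      · exact Or.inl heq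
      · exact Or.inr (hext _ _ ha' hb' ⟨hab, heq⟩)
    · intro hos
      obtain ⟨f, hf, hfX, hfd⟩ := of_hasOmegaStar h𝓜 hos
      refine hnd ⟨f, hf, hfX, fun i => ?_⟩
      obtain ⟨h1, h2⟩ := hfd i
      obtain ⟨-, h1⟩ := mem_relSet.mp h1
      exact h1.resolve_left h2

/-- arithmetical comprehension fails -/
theorem omega_not_aca (h𝓜 : IsSig 𝓜) {T : ℕ → ℕ → Prop} (hT : PrimrecRel T)
    (hnot : ¬ Dl 𝓜 (fun n : ℕ => ∃ m, T n m)) :
    ¬ (omegaModel (DSets 𝓜)).ArithmeticalComprehension := by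
  intro hac
  have hTd : Dl 𝓜 (fun x : ℕ × ℕ => T x.1 x.2) := h𝓜.dprim hT
  have hmem := relSet_mem h𝓜 hTd
  obtain ⟨X, hX, hX'⟩ := hac
    (.ex 1 (.mem (.add (.mul (.add (.var 0) (.var 1)) (.add (.var 0) (.var 1))) (.var 0)) 0))
    trivial 0 (fun _ => 0) (fun _ => relSet T) (fun _ => hmem)
  apply hnot
  refine Dl.congr (p := fun n : ℕ => n ∈ X) hX fun n => ?_
  rw [hX' n, sat_ex']
  refine exists_congr fun m => ?_
  have : (omegaModel (DSets 𝓜)).Sat (Function.update (Function.update (fun _ => 0) 0 n) 1 m)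
      (fun _ => relSet T) (.mem (.add (.mul (.add (.var 0) (.var 1)) (.add (.var 0) (.var 1)))
        (.var 0)) 0) ↔ pr n m ∈ relSet T := by
    simp only [Model.Sat, Model.val]
    rfl
  rw [this, mem_relSet]

theorem dsets_countable (h : 𝓜.Countable) : (DSets 𝓜).Countable := by
  have : DSets 𝓜 ⊆ (fun (p : ℕ → Prop) => {n | p n}) '' 𝓜 := by
    intro X hX
    exact ⟨fun n => n ∈ X, sg_nat.mp hX.1, rfl⟩
  exact (h.image _).mono this

end Pool.Agent.Helper42.Ext
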