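import Mathlib
import Pool.Agent.Helper42.Ext.Omega
import Pool.Agent.Helper51.EXT.Base
import Pool.Agent.Helper68.EXT.Main
import Pool.Agent.Helper39.EXT.Core

/-! Assembly (for MP_9b0a74_lc). -/

namespace Pool.Agent.Helper42.Ext

open Pool.Agent.Helper42.SOA EXT88

theorem assembly (h4 : ∀ U : ℕ → Prop, Lemma4 U) :
    ∃ 𝒮 : Set (Set ℕ), 𝒮.Countable ∧ (omegaModel 𝒮).RCA0 ∧ (omegaModel 𝒮).EXTOmegaStar ∧
      ¬ (omegaModel 𝒮).ArithmeticalComprehension := by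
  obtain ⟨𝓜, hc, hs, ⟨T, hT, hT'⟩, hmain⟩ := core_of base
    (fun U R hR S hU hRS C hC hcod => main_sol_of_lemma4 (h4 U) hR S hU hRS C hC hcod)
  refine ⟨DSets 𝓜, dsets_countable hc, omega_rca0 hs, omega_ext hs ?_, omega_not_aca hs hT hT'⟩
  intro X P hX hP hPO
  rcases hmain X P hX hP ⟨hPO.1, hPO.2⟩ with h | ⟨L, hL, hSLO, hext, hno⟩
  · exact Or.inl h
  · exact Or.inr ⟨L, hL, ⟨hSLO.irrefl, hSLO.trans⟩, hSLO.total, hext, hno⟩

end Pool.Agent.Helper42.Ext
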