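import Mathlib

/-! Countable classes of functions closed under choice for countably many relations, and codes
of finite sets (for MP_9b0a74_lc). -/

namespace Pool.Agent.Helper42.Ext

open scoped Classical

/-- the ultrafilter -/
noncomputable def UF : Ultrafilter ℕ := Filter.hyperfilter ℕ

/-- almost everywhere -/
def ae (p : ℕ → Prop) : Prop := ∀ᶠ n in (UF : Filter ℕ), p n

theorem ae_of_forall {p : ℕ → Prop} (h : ∀ n, p n) : ae p := Filter.Eventually.of_forall h

theorem ae.mono {p q : ℕ → Prop} (h : ae p) (hpq : ∀ n, p n → q n) : ae q :=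
  Filter.Eventually.mono h hpq

theorem ae.and {p q : ℕ → Prop} (h : ae p) (hq : ae q) : ae (fun n => p n ∧ q n) :=
  Filter.Eventually.and h hq

theorem ae_not {p : ℕ → Prop} : (ae fun n => ¬ p n) ↔ ¬ ae p := Ultrafilter.eventually_not

theorem ae_or {p q : ℕ → Prop} : (ae fun n => p n ∨ q n) ↔ ae p ∨ ae q :=
  Ultrafilter.eventually_or

theorem ae.exists {p : ℕ → Prop} (h : ae p) : ∃ n, p n := Filter.Eventually.exists h

theorem ae_false : ¬ ae (fun _ => False) := fun h => by
  obtain ⟨_, h⟩ := h.exists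
  exact h

theorem ae_gt (m : ℕ) : ae (fun n => m < n) := by
  have : ∀ᶠ n in Filter.atTop, m < n := Filter.eventually_gt_atTop m
  rw [← Nat.cofinite_eq_atTop] at this
  exact Filter.Eventually.filter_mono (Filter.hyperfilter_le_cofinite) this

/-- A class of functions closed under pairing and under choice for the relations in `C`. -/
structure Rich (A : Set (ℕ → ℕ)) (C : Set (ℕ → ℕ → Prop)) : Prop where
  idn : (fun n => n) ∈ A
  pair : ∀ f ∈ A, ∀ g ∈ A, (fun n => Nat.pair (f n) (g n)) ∈ A
  sk : ∀ R ∈ C, ∀ f ∈ A, ae (fun n => ∃ y, R (f n) y) → ∃ g ∈ A, ae (fun n => R (f n) (g n))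

/-- choice function -/
noncomputable def skf (R : ℕ → ℕ → Prop) (x : ℕ) : ℕ := if h : ∃ y, R x y then h.choose else 0

theorem skf_spec {R : ℕ → ℕ → Prop} {x : ℕ} (h : ∃ y, R x y) : R x (skf R x) := by
  unfold skf
  rw [dif_pos h]
  exact h.choose_spec

noncomputable def levA (C : Set (ℕ → ℕ → Prop)) : ℕ → Set (ℕ → ℕ)
  | 0 => {fun n => n}
  | k + 1 => levA C k ∪ Set.image2 (fun f g n => Nat.pair (f n) (g n)) (levA C k) (levA C k) ∪
      Set.image2 (fun R f n => skf R (f n)) C (levA C k)

theorem levA_mono (C : Set (ℕ → ℕ → Prop)) : Monotone (levA C) :=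
  monotone_nat_of_le_succ (fun k => by
    intro f hf
    exact Or.inl (Or.inl hf))

theorem levA_countable {C : Set (ℕ → ℕ → Prop)} (hC : C.Countable) (k : ℕ) :
    (levA C k).Countable := by
  induction k with
  | zero => exact Set.countable_singleton _
  | succ k ih =>
    exact ((ih.union (ih.image2 ih _)).union (hC.image2 ih _))

theorem exists_rich {C : Set (ℕ → ℕ → Prop)} (hC : C.Countable) :
    ∃ A : Set (ℕ → ℕ), A.Countable ∧ Rich A C := by
  refine ⟨⋃ k, levA C k, Set.countable_iUnion (levA_countable hC), ?_, ?_, ?_⟩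
  · exact Set.mem_iUnion.mpr ⟨0, rfl⟩
  · intro f hf g hg
    obtain ⟨k, hk⟩ := Set.mem_iUnion.mp hf
    obtain ⟨l, hl⟩ := Set.mem_iUnion.mp hg
    refine Set.mem_iUnion.mpr ⟨max k l + 1, Or.inl (Or.inr ?_)⟩
    exact ⟨f, levA_mono C (le_max_left k l) hk, g, levA_mono C (le_max_right k l) hl, rfl⟩
  · intro R hR f hf hex
    obtain ⟨k, hk⟩ := Set.mem_iUnion.mp hf
    refine ⟨fun n => skf R (f n), Set.mem_iUnion.mpr ⟨k + 1, Or.inr ⟨R, hR, f, hk, rfl⟩⟩, ?_⟩
    exact hex.mono (fun n hn => skf_spec hn)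

/-! ### codes of finite sets -/

/-- `x` is an element of the finite set coded by `v` -/
def el (v x : ℕ) : Prop := v.testBit x = true

theorem el_zero (x : ℕ) : ¬ el 0 x := by simp [el]

theorem exists_code (B : ℕ) (p : ℕ → Prop) : ∃ v, ∀ x, el v x ↔ x < B ∧ p x := by
  induction B with
  | zero => exact ⟨0, fun x => by simp [el]⟩
  | succ B ih =>
    obtain ⟨v, hv⟩ := ih
    by_cases hB : p B
    · refine ⟨v ||| 2 ^ B, fun x => ?_⟩
      have h1 : el (v ||| 2 ^ B) x ↔ el v x ∨ B = x := by
        simp [el, Nat.testBit_two_pow]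
      rw [h1, hv]
      constructor
      · rintro (⟨h1, h2⟩ | rfl)
        · exact ⟨by omega, h2⟩
        · exact ⟨by omega, hB⟩
      · rintro ⟨h1, h2⟩
        by_cases hx : B = x
        · exact Or.inr hx
        · exact Or.inl ⟨by omega, h2⟩
    · refine ⟨v, fun x => ?_⟩
      rw [hv]
      constructor
      · rintro ⟨h1, h2⟩
        exact ⟨by omega, h2⟩
      · rintro ⟨h1, h2⟩
        refine ⟨?_, h2⟩
        by_contra hx
        have : x = B := by omega
        exact hB (this ▸ h2)

theorem el_lt {v x : ℕ} (h : el v x) : x < v := by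
  by_contra hx
  have h1 : v < 2 ^ x := lt_of_le_of_lt (not_lt.mp hx) Nat.lt_two_pow_self
  have := Nat.testBit_lt_two_pow h1
  unfold el at h
  rw [this] at h
  exact Bool.noConfusion h

theorem el_finite (v : ℕ) : {x | el v x}.Finite :=
  (Set.finite_Iio v).subset (fun _ hx => el_lt hx)

end Pool.Agent.Helper42.Ext
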