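import Mathlib
import Pool.Agent.Helper42.Ext.Rich
import Pool.Agent.Helper42.Ext.SOA

/-! The model attached to a cut (for MP_9b0a74_lc). -/

namespace Pool.Agent.Helper42.Ext

open scoped Classical
open Pool.Agent.Helper42.SOA

/-- germs -/
abbrev GN : Type := Filter.Germ (UF : Filter ℕ) ℕ

theorem gn_eq {f g : ℕ → ℕ} : ((f : GN) = (g : GN)) ↔ ae (fun n => f n = g n) :=
  Filter.Germ.coe_eq

theorem gn_lt {f g : ℕ → ℕ} : ((f : GN) < (g : GN)) ↔ ae (fun n => f n < g n) :=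
  Filter.Germ.coe_lt

/-- The numbers of the cut. -/
def Num (A : Set (ℕ → ℕ)) (l : ℕ → ℕ → ℕ) : Type :=
  {κ : GN // ∃ f ∈ A, κ = (f : GN) ∧ ∃ k, ae (fun n => f n < l k n)}

def RZero : ℕ → ℕ → Prop := fun _ y => y = 0
def ROne : ℕ → ℕ → Prop := fun _ y => y = 1
def RAdd : ℕ → ℕ → Prop := fun x y => y = (Nat.unpair x).1 + (Nat.unpair x).2
def RMul : ℕ → ℕ → Prop := fun x y => y = (Nat.unpair x).1 * (Nat.unpair x).2

/-- Hypotheses on a cut needed for the arithmetic operations. -/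
structure CutOK (A : Set (ℕ → ℕ)) (C : Set (ℕ → ℕ → Prop)) (l : ℕ → ℕ → ℕ) : Prop where
  rich : Rich A C
  zeroC : RZero ∈ C
  oneC : ROne ∈ C
  addC : RAdd ∈ C
  mulC : RMul ∈ C
  mono : ∀ k k', k ≤ k' → ae (fun n => l k n ≤ l k' n)
  grow : ∀ k, ∃ k', ae (fun n => l k n * l k n + l k n + 2 ≤ l k' n)

section

variable {A : Set (ℕ → ℕ)} {C : Set (ℕ → ℕ → Prop)} {l : ℕ → ℕ → ℕ}

/-- `g` is almost everywhere equal to a member of `A` -/
def InA (A : Set (ℕ → ℕ)) (g : ℕ → ℕ) : Prop := ∃ f ∈ A, ae (fun n => f n = g n)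

theorem inA_of_mem {f : ℕ → ℕ} (h : f ∈ A) : InA A f := ⟨f, h, ae_of_forall fun _ => rfl⟩

def Bdd (l : ℕ → ℕ → ℕ) (g : ℕ → ℕ) : Prop := ∃ k, ae (fun n => g n < l k n)

theorem exists_num {g : ℕ → ℕ} (h : InA A g) (hb : Bdd l g) : ∃ κ : Num A l, κ.1 = (g : GN) := by
  obtain ⟨f, hf, hfg⟩ := h
  obtain ⟨k, hk⟩ := hb
  exact ⟨⟨(g : GN), f, hf, (gn_eq.mpr hfg).symm, k,
    (hfg.and hk).mono fun n hn => hn.1 ▸ hn.2⟩, rfl⟩

/-- every number has a representative in `A` -/
theorem Num.rep (κ : Num A l) : ∃ f ∈ A, κ.1 = (f : GN) ∧ Bdd l f := κ.2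

theorem Num.bdd {κ : Num A l} {g : ℕ → ℕ} (h : κ.1 = (g : GN)) : Bdd l g := by
  obtain ⟨f, _, hκ, k, hk⟩ := κ.2
  have := gn_eq.mp (h.symm.trans hκ)
  exact ⟨k, (this.and hk).mono fun n hn => hn.1.symm ▸ hn.2⟩

theorem Bdd.lt {f g : ℕ → ℕ} (hg : Bdd l g) (h : ae (fun n => f n ≤ g n)) : Bdd l f := by
  obtain ⟨k, hk⟩ := hg
  exact ⟨k, (h.and hk).mono fun n hn => lt_of_le_of_lt hn.1 hn.2⟩

theorem CutOK.inA_const0 (h : CutOK A C l) : InA A (fun _ => 0) := by
  obtain ⟨g, hg, hg'⟩ := h.rich.sk _ h.zeroC _ h.rich.idn (ae_of_forall fun n => ⟨0, rfl⟩)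
  exact ⟨g, hg, hg'⟩

theorem CutOK.inA_const1 (h : CutOK A C l) : InA A (fun _ => 1) := by
  obtain ⟨g, hg, hg'⟩ := h.rich.sk _ h.oneC _ h.rich.idn (ae_of_forall fun n => ⟨1, rfl⟩)
  exact ⟨g, hg, hg'⟩

theorem CutOK.inA_add (h : CutOK A C l) {f g : ℕ → ℕ} (hf : InA A f) (hg : InA A g) :
    InA A (fun n => f n + g n) := by
  obtain ⟨f', hf', hff⟩ := hf
  obtain ⟨g', hg', hgg⟩ := hg
  obtain ⟨s, hs, hs'⟩ := h.rich.sk _ h.addC _ (h.rich.pair f' hf' g' hg')
    (ae_of_forall fun n => ⟨_, rfl⟩)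
  refine ⟨s, hs, (hs'.and (hff.and hgg)).mono ?_⟩
  rintro n ⟨h1, h2, h3⟩
  simp only [RAdd, Nat.unpair_pair] at h1
  simp only [h1, h2, h3]

theorem CutOK.inA_mul (h : CutOK A C l) {f g : ℕ → ℕ} (hf : InA A f) (hg : InA A g) :
    InA A (fun n => f n * g n) := by
  obtain ⟨f', hf', hff⟩ := hf
  obtain ⟨g', hg', hgg⟩ := hg
  obtain ⟨s, hs, hs'⟩ := h.rich.sk _ h.mulC _ (h.rich.pair f' hf' g' hg')
    (ae_of_forall fun n => ⟨_, rfl⟩)
  refine ⟨s, hs, (hs'.and (hff.and hgg)).mono ?_⟩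
  rintro n ⟨h1, h2, h3⟩
  simp only [RMul, Nat.unpair_pair] at h1
  simp only [h1, h2, h3]

theorem CutOK.bdd_const (h : CutOK A C l) (c : ℕ) (hc : c ≤ 1) : Bdd l (fun _ => c) := by
  obtain ⟨k', hk'⟩ := h.grow 0
  refine ⟨k', hk'.mono fun n hn => ?_⟩
  have hn' : l 0 n * l 0 n + l 0 n + 2 ≤ l k' n := hn
  show c < l k' n
  have : 0 ≤ l 0 n * l 0 n := Nat.zero_le _
  omega

theorem CutOK.bdd_two (h : CutOK A C l) {f g : ℕ → ℕ} (hf : Bdd l f) (hg : Bdd l g) :
    ∃ k, ae (fun n => f n < l k n ∧ g n < l k n) := by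
  obtain ⟨k, hk⟩ := hf
  obtain ⟨k', hk'⟩ := hg
  refine ⟨max k k', ((hk.and hk').and ((h.mono k (max k k') (le_max_left _ _)).and
    (h.mono k' (max k k') (le_max_right _ _)))).mono ?_⟩
  rintro n ⟨⟨h1, h2⟩, h3, h4⟩
  exact ⟨lt_of_lt_of_le h1 h3, lt_of_lt_of_le h2 h4⟩

theorem CutOK.bdd_add (h : CutOK A C l) {f g : ℕ → ℕ} (hf : Bdd l f) (hg : Bdd l g) :
    Bdd l (fun n => f n + g n) := by
  obtain ⟨k, hk⟩ := h.bdd_two hf hg
  obtain ⟨k', hk'⟩ := h.grow k
  refine ⟨k', (hk.and hk').mono ?_⟩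
  rintro n ⟨⟨h1, h2⟩, h3⟩
  nlinarith

theorem CutOK.bdd_mul (h : CutOK A C l) {f g : ℕ → ℕ} (hf : Bdd l f) (hg : Bdd l g) :
    Bdd l (fun n => f n * g n) := by
  obtain ⟨k, hk⟩ := h.bdd_two hf hg
  obtain ⟨k', hk'⟩ := h.grow k
  refine ⟨k', (hk.and hk').mono ?_⟩
  rintro n ⟨⟨h1, h2⟩, h3⟩
  have : f n * g n ≤ l k n * l k n := Nat.mul_le_mul h1.le h2.le
  show f n * g n < l k' n
  omega

/-- the subset of the cut coded by `F` -/
def coded (A : Set (ℕ → ℕ)) (l : ℕ → ℕ → ℕ) (F : ℕ → ℕ) : Set (Num A l) :=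
  {κ | ∃ g : ℕ → ℕ, κ.1 = (g : GN) ∧ ae (fun n => el (F n) (g n))}

theorem mem_coded {F : ℕ → ℕ} {κ : Num A l} {g : ℕ → ℕ} (h : κ.1 = (g : GN)) :
    κ ∈ coded A l F ↔ ae (fun n => el (F n) (g n)) := by
  constructor
  · rintro ⟨g', h', h''⟩
    have := gn_eq.mp (h.symm.trans h')
    exact (this.and h'').mono fun n hn => hn.1.symm ▸ hn.2
  · intro h'
    exact ⟨g, h, h'⟩

/-- The model. -/
@[reducible] noncomputable def cutModel (h : CutOK A C l) : Model where
  N := Num A l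
  zero := ⟨((fun _ => 0 : ℕ → ℕ) : GN), by
    obtain ⟨κ, hκ⟩ := exists_num h.inA_const0 (h.bdd_const 0 (by omega))
    exact hκ ▸ κ.2⟩
  one := ⟨((fun _ => 1 : ℕ → ℕ) : GN), by
    obtain ⟨κ, hκ⟩ := exists_num h.inA_const1 (h.bdd_const 1 (by omega))
    exact hκ ▸ κ.2⟩
  add κ μ := ⟨κ.1 + μ.1, by
    obtain ⟨f, hf, hκ, hfb⟩ := κ.rep
    obtain ⟨g, hg, hμ, hgb⟩ := μ.rep
    obtain ⟨ν, hν⟩ := exists_num (h.inA_add (inA_of_mem hf) (inA_of_mem hg)) (h.bdd_add hfb hgb)
    have : κ.1 + μ.1 = ν.1 := by rw [hκ, hμ, hν]; rfl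
    exact this ▸ ν.2⟩
  mul κ μ := ⟨κ.1 * μ.1, by
    obtain ⟨f, hf, hκ, hfb⟩ := κ.rep
    obtain ⟨g, hg, hμ, hgb⟩ := μ.rep
    obtain ⟨ν, hν⟩ := exists_num (h.inA_mul (inA_of_mem hf) (inA_of_mem hg)) (h.bdd_mul hfb hgb)
    have : κ.1 * μ.1 = ν.1 := by rw [hκ, hμ, hν]; rfl
    exact this ▸ ν.2⟩
  lt κ μ := κ.1 < μ.1
  Sets := {X | ∃ F ∈ A, X = coded A l F}

variable (h : CutOK A C l)

theorem cm_add {κ μ : Num A l} {f g : ℕ → ℕ} (hf : κ.1 = (f : GN)) (hg : μ.1 = (g : GN)) :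
    ((cutModel h).add κ μ).1 = ((fun n => f n + g n : ℕ → ℕ) : GN) := by
  show κ.1 + μ.1 = _
  rw [hf, hg]; rfl

theorem cm_mul {κ μ : Num A l} {f g : ℕ → ℕ} (hf : κ.1 = (f : GN)) (hg : μ.1 = (g : GN)) :
    ((cutModel h).mul κ μ).1 = ((fun n => f n * g n : ℕ → ℕ) : GN) := by
  show κ.1 * μ.1 = _
  rw [hf, hg]; rfl

theorem cm_lt {κ μ : Num A l} {f g : ℕ → ℕ} (hf : κ.1 = (f : GN)) (hg : μ.1 = (g : GN)) :
    (cutModel h).lt κ μ ↔ ae (fun n => f n < g n) := by
  show κ.1 < μ.1 ↔ _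
  rw [hf, hg]; exact gn_lt

theorem cm_eq {κ μ : Num A l} {f g : ℕ → ℕ} (hf : κ.1 = (f : GN)) (hg : μ.1 = (g : GN)) :
    κ = μ ↔ ae (fun n => f n = g n) := by
  rw [← gn_eq, ← hf, ← hg]
  exact Subtype.ext_iff

theorem cm_zero : ((cutModel h).zero : Num A l).1 = ((fun _ => 0 : ℕ → ℕ) : GN) := rfl
theorem cm_one : ((cutModel h).one : Num A l).1 = ((fun _ => 1 : ℕ → ℕ) : GN) := rfl

/-! ### the standard side -/

/-- value of a term in the standard numbers -/
def tval (e : ℕ → ℕ) : Term → ℕ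
  | .var i => e i
  | .zero => 0
  | .one => 1
  | .add s t => tval e s + tval e t
  | .mul s t => tval e s * tval e t

/-- satisfaction of arithmetical formulas in the standard numbers with coded sets -/
def sN : (ℕ → ℕ) → (ℕ → ℕ) → Form → Prop
  | e, _, .eq s t => tval e s = tval e t
  | e, _, .lt s t => tval e s < tval e t
  | e, E, .mem t i => el (E i) (tval e t)
  | e, E, .neg φ => ¬ sN e E φ
  | e, E, .and φ ψ => sN e E φ ∧ sN e E ψ
  | e, E, .all i φ => ∀ a, sN (Function.update e i a) E φ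
  | _, _, .allSet _ _ => True

theorem tval_ext (t : Term) : ∃ K, ∀ e e' : ℕ → ℕ, (∀ i < K, e i = e' i) →
    tval e t = tval e' t := by
  induction t with
  | var i => exact ⟨i + 1, fun e e' h => h i (by omega)⟩
  | zero => exact ⟨0, fun _ _ _ => rfl⟩
  | one => exact ⟨0, fun _ _ _ => rfl⟩
  | add s t hs ht =>
    obtain ⟨K1, h1⟩ := hs
    obtain ⟨K2, h2⟩ := ht
    refine ⟨max K1 K2, fun e e' h => ?_⟩
    simp only [tval]
    rw [h1 e e' (fun i hi => h i (lt_of_lt_of_le hi (le_max_left _ _))),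
      h2 e e' (fun i hi => h i (lt_of_lt_of_le hi (le_max_right _ _)))]
  | mul s t hs ht =>
    obtain ⟨K1, h1⟩ := hs
    obtain ⟨K2, h2⟩ := ht
    refine ⟨max K1 K2, fun e e' h => ?_⟩
    simp only [tval]
    rw [h1 e e' (fun i hi => h i (lt_of_lt_of_le hi (le_max_left _ _))),
      h2 e e' (fun i hi => h i (lt_of_lt_of_le hi (le_max_right _ _)))]

theorem sN_ext (φ : Form) : ∃ K, ∀ e e' E E' : ℕ → ℕ, (∀ i < K, e i = e' i) →
    (∀ i < K, E i = E' i) → (sN e E φ ↔ sN e' E' φ) := by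
  induction φ with
  | eq s t =>
    obtain ⟨K1, h1⟩ := tval_ext s
    obtain ⟨K2, h2⟩ := tval_ext t
    refine ⟨max K1 K2, fun e e' E E' h _ => ?_⟩
    simp only [sN]
    rw [h1 e e' (fun i hi => h i (lt_of_lt_of_le hi (le_max_left _ _))),
      h2 e e' (fun i hi => h i (lt_of_lt_of_le hi (le_max_right _ _)))]
  | lt s t =>
    obtain ⟨K1, h1⟩ := tval_ext s
    obtain ⟨K2, h2⟩ := tval_ext t
    refine ⟨max K1 K2, fun e e' E E' h _ => ?_⟩
    simp only [sN]
    rw [h1 e e' (fun i hi => h i (lt_of_lt_of_le hi (le_max_left _ _))),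
      h2 e e' (fun i hi => h i (lt_of_lt_of_le hi (le_max_right _ _)))]
  | mem t i =>
    obtain ⟨K1, h1⟩ := tval_ext t
    refine ⟨max K1 (i + 1), fun e e' E E' h hE => ?_⟩
    simp only [sN]
    rw [h1 e e' (fun i hi => h i (lt_of_lt_of_le hi (le_max_left _ _))),
      hE i (lt_of_lt_of_le (Nat.lt_succ_self i) (le_max_right _ _))]
  | neg φ ih =>
    obtain ⟨K, hK⟩ := ih
    refine ⟨K, fun e e' E E' h hE => ?_⟩
    simp only [sN]
    rw [hK e e' E E' h hE]
  | and φ ψ ih1 ih2 =>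
    obtain ⟨K1, h1⟩ := ih1
    obtain ⟨K2, h2⟩ := ih2
    refine ⟨max K1 K2, fun e e' E E' h hE => ?_⟩
    simp only [sN]
    rw [h1 e e' E E' (fun i hi => h i (lt_of_lt_of_le hi (le_max_left _ _)))
        (fun i hi => hE i (lt_of_lt_of_le hi (le_max_left _ _))),
      h2 e e' E E' (fun i hi => h i (lt_of_lt_of_le hi (le_max_right _ _)))
        (fun i hi => hE i (lt_of_lt_of_le hi (le_max_right _ _)))]
  | all i φ ih =>
    obtain ⟨K, hK⟩ := ih
    refine ⟨K, fun e e' E E' h hE => ?_⟩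
    simp only [sN]
    refine forall_congr' fun a => hK _ _ E E' (fun j hj => ?_) hE
    by_cases hji : j = i
    · subst hji; simp
    · simp [Function.update_of_ne hji, h j hj]
  | allSet i φ _ => exact ⟨0, fun _ _ _ _ _ _ => Iff.rfl⟩

/-- codes of finite tuples -/
def untup : ℕ → ℕ → ℕ → ℕ
  | 0, _, _ => 0
  | K + 1, c, j => if j = K then (Nat.unpair c).1 else untup K (Nat.unpair c).2 j

theorem exists_tup (hA : Rich A C) (f : ℕ → ℕ → ℕ) (hf : ∀ i, f i ∈ A) (K : ℕ) :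
    ∃ g ∈ A, ∀ n, ∀ j < K, untup K (g n) j = f j n := by
  induction K with
  | zero => exact ⟨_, hA.idn, fun n j hj => by omega⟩
  | succ K ih =>
    obtain ⟨g, hg, hg'⟩ := ih
    refine ⟨_, hA.pair (f K) (hf K) g hg, fun n j hj => ?_⟩
    unfold untup
    by_cases hjK : j = K
    · subst hjK; simp
    · rw [if_neg hjK]
      simp only [Nat.unpair_pair]
      exact hg' n j (by omega)

/-- witness for the failure of a bounded universal quantifier -/
def RWit (φ : Form) (i : ℕ) (t : Term) (K : ℕ) : ℕ → ℕ → Prop := fun c y =>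
  y < tval (untup K (Nat.unpair c).1) t ∧
    ¬ sN (Function.update (untup K (Nat.unpair c).1) i y) (untup K (Nat.unpair c).2) φ

/-- simultaneous representation of assignments -/
structure Repr (A : Set (ℕ → ℕ)) (l : ℕ → ℕ → ℕ) (e : ℕ → Num A l) (E : ℕ → Set (Num A l))
    (f F : ℕ → ℕ → ℕ) : Prop where
  memf : ∀ i, f i ∈ A
  memF : ∀ i, F i ∈ A
  eqf : ∀ i, (e i).1 = (f i : GN)
  eqF : ∀ i, E i = coded A l (F i)

theorem Repr.update {e : ℕ → Num A l} {E : ℕ → Set (Num A l)} {f F : ℕ → ℕ → ℕ}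
    (hr : Repr A l e E f F) {κ : Num A l} {g : ℕ → ℕ} (hg : g ∈ A) (hκ : κ.1 = (g : GN))
    (i : ℕ) : Repr A l (Function.update e i κ) E (Function.update f i g) F := by
  refine ⟨fun j => ?_, hr.memF, fun j => ?_, hr.eqF⟩
  · by_cases hj : j = i
    · subst hj; simpa using hg
    · simpa [Function.update_of_ne hj] using hr.memf j
  · by_cases hj : j = i
    · subst hj; simpa using hκ
    · simpa [Function.update_of_ne hj] using hr.eqf j

theorem update_apply_fun (f : ℕ → ℕ → ℕ) (i : ℕ) (g : ℕ → ℕ) (n : ℕ) :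
    (fun j => Function.update f i g j n) = Function.update (fun j => f j n) i (g n) := by
  funext j
  by_cases hj : j = i
  · subst hj; simp
  · simp [Function.update_of_ne hj]

theorem exists_repr {h : CutOK A C l} (e : ℕ → Num A l) (E : ℕ → Set (Num A l))
    (hE : ∀ k, E k ∈ (cutModel h).Sets) : ∃ f F, Repr A l e E f F := by
  have h1 : ∀ i, ∃ f ∈ A, (e i).1 = (f : GN) := fun i => by
    obtain ⟨f, hf, hκ, -⟩ := (e i).rep
    exact ⟨f, hf, hκ⟩
  choose f hf hfe using h1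
  have h2 : ∀ i, ∃ F ∈ A, E i = coded A l F := fun i => hE i
  choose F hF hFE using h2
  exact ⟨f, F, hf, hF, hfe, hFE⟩

theorem val_repr (h : CutOK A C l) {e : ℕ → Num A l} {f : ℕ → ℕ → ℕ}
    (hf : ∀ i, (e i).1 = (f i : GN)) (t : Term) :
    ((cutModel h).val e t : Num A l).1 = ((fun n => tval (fun i => f i n) t : ℕ → ℕ) : GN) := by
  induction t with
  | var i => exact hf i
  | zero => rfl
  | one => rfl
  | add s t hs ht => exact cm_add h hs ht
  | mul s t hs ht => exact cm_mul h hs ht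

theorem val_update (M : Model) (e : ℕ → M.N) (i : ℕ) (a : M.N) {t : Term} (ht : ¬ t.Occurs i) :
    M.val (Function.update e i a) t = M.val e t := by
  induction t with
  | var j =>
    simp only [Term.Occurs] at ht
    simp [Model.val, Function.update_of_ne ht]
  | zero => rfl
  | one => rfl
  | add s t hs ht' =>
    simp only [Term.Occurs, not_or] at ht
    simp only [Model.val]
    rw [hs ht.1, ht' ht.2]
  | mul s t hs ht' =>
    simp only [Term.Occurs, not_or] at ht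
    simp only [Model.val]
    rw [hs ht.1, ht' ht.2]

theorem tval_update (e : ℕ → ℕ) (i a : ℕ) {t : Term} (ht : ¬ t.Occurs i) :
    tval (Function.update e i a) t = tval e t := by
  induction t with
  | var j =>
    simp only [Term.Occurs] at ht
    simp [tval, Function.update_of_ne ht]
  | zero => rfl
  | one => rfl
  | add s t hs ht' =>
    simp only [Term.Occurs, not_or] at ht
    simp only [tval]
    rw [hs ht.1, ht' ht.2]
  | mul s t hs ht' =>
    simp only [Term.Occurs, not_or] at ht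
    simp only [tval]
    rw [hs ht.1, ht' ht.2]

/-- Transfer for bounded formulas. -/
theorem transfer (h : CutOK A C l) (hwit : ∀ φ i t K, RWit φ i t K ∈ C) {φ : Form}
    (hφ : φ.IsBounded) : ∀ (e : ℕ → Num A l) (E : ℕ → Set (Num A l)) (f F : ℕ → ℕ → ℕ),
    Repr A l e E f F →
    ((cutModel h).Sat e E φ ↔ ae (fun n => sN (fun i => f i n) (fun i => F i n) φ)) := by
  induction hφ with
  | eq s t =>
    intro e E f F hr
    simp only [Model.Sat, sN]
    exact cm_eq (val_repr h hr.eqf s) (val_repr h hr.eqf t)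
  | lt s t =>
    intro e E f F hr
    simp only [Model.Sat, sN]
    exact cm_lt h (val_repr h hr.eqf s) (val_repr h hr.eqf t)
  | mem t i =>
    intro e E f F hr
    simp only [Model.Sat, sN]
    rw [hr.eqF i]
    exact mem_coded (val_repr h hr.eqf t)
  | neg hφ ih =>
    intro e E f F hr
    simp only [Model.Sat, sN]
    rw [ih e E f F hr, ae_not]
  | and hφ hψ ih1 ih2 =>
    intro e E f F hr
    simp only [Model.Sat, sN]
    rw [ih1 e E f F hr, ih2 e E f F hr]
    exact ⟨fun h => h.1.and h.2, fun h => ⟨h.mono fun _ h => h.1, h.mono fun _ h => h.2⟩⟩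
  | @ball φ i t ht hφ ih =>
    intro e E f F hr
    simp only [Model.Sat, sN, Form.imp, not_and, not_not]
    constructor
    · intro hM
      by_contra hno
      rw [← ae_not] at hno
      -- choose a witness
      obtain ⟨K1, hK1⟩ := tval_ext t
      obtain ⟨K2, hK2⟩ := sN_ext φ
      obtain ⟨c1, hc1, hc1'⟩ := exists_tup h.rich f hr.memf (max K1 K2)
      obtain ⟨c2, hc2, hc2'⟩ := exists_tup h.rich F hr.memF (max K1 K2)
      have htv : ∀ n, tval (untup (max K1 K2) (c1 n)) t = tval (fun i => f i n) t := fun n =>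
        hK1 _ _ (fun i hi => hc1' n i (lt_of_lt_of_le hi (le_max_left _ _)))
      have hsv : ∀ n y, (sN (Function.update (untup (max K1 K2) (c1 n)) i y)
          (untup (max K1 K2) (c2 n)) φ ↔
          sN (Function.update (fun i => f i n) i y) (fun i => F i n) φ) := fun n y => by
        refine hK2 _ _ _ _ (fun j hj => ?_)
          (fun j hj => hc2' n j (lt_of_lt_of_le hj (le_max_right _ _)))
        by_cases hji : j = i
        · subst hji; simp
        · simp only [Function.update_of_ne hji]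
          exact hc1' n j (lt_of_lt_of_le hj (le_max_right _ _))
      obtain ⟨g, hg, hg'⟩ := h.rich.sk _ (hwit φ i t (max K1 K2)) _
        (h.rich.pair c1 hc1 c2 hc2) (by
          refine hno.mono fun n hn => ?_
          push Not at hn
          obtain ⟨a, ha1, ha2⟩ := hn
          refine ⟨a, ?_, ?_⟩
          · simp only [Nat.unpair_pair]
            rw [htv n]
            simp only [tval, Function.update_self] at ha1
            rwa [tval_update _ _ _ ht] at ha1
          · simp only [Nat.unpair_pair]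
            rw [hsv n a]
            exact ha2)
      have hg1 : ae (fun n => g n < tval (fun i => f i n) t) := hg'.mono fun n hn => by
        have := hn.1
        simp only [Nat.unpair_pair] at this
        rwa [htv n] at this
      have hg2 : ae (fun n => ¬ sN (Function.update (fun i => f i n) i (g n))
          (fun i => F i n) φ) := hg'.mono fun n hn => by
        have := hn.2
        simp only [Nat.unpair_pair] at this
        rwa [hsv n] at this
      have hval := val_repr h hr.eqf t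
      have hgb : Bdd l g := (Num.bdd hval).lt (hg1.mono fun n hn => hn.le)
      obtain ⟨κ, hκ⟩ := exists_num (inA_of_mem hg) hgb
      have hlt : (cutModel h).lt ((cutModel h).val (Function.update e i κ) (.var i))
          ((cutModel h).val (Function.update e i κ) t) := by
        rw [val_update _ _ _ _ ht]
        simp only [Model.val, Function.update_self]
        exact (cm_lt h hκ hval).mpr hg1
      have := hM κ hlt
      rw [ih _ E _ F (hr.update hg hκ i)] at this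
      obtain ⟨n, h1, h2⟩ := (this.and hg2).exists
      rw [update_apply_fun] at h1
      exact h2 h1
    · intro hN κ hlt
      obtain ⟨g, hg, hκ, -⟩ := κ.rep
      rw [val_update _ _ _ _ ht] at hlt
      simp only [Model.val, Function.update_self] at hlt
      have hlt' := (cm_lt h hκ (val_repr h hr.eqf t)).mp hlt
      rw [ih _ E _ F (hr.update hg hκ i)]
      refine (hN.and hlt').mono ?_
      rintro n ⟨h1, h2⟩
      rw [update_apply_fun]
      apply h1 (g n)
      simp only [tval, Function.update_self]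
      rwa [tval_update _ _ _ ht]

end

end Pool.Agent.Helper42.Ext
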