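import Mathlib

/-! Small sets of labels (for MP_9b0a74_lc).  `Small N k X`: the finite set `X` is small of
rank `k` with width `N`.  Main result: for all `N k` some initial segment is not small. -/

namespace Pool.Agent.Helper42.Ext

/-- Strict Kleene-Brouwer order on finite sets, seen as increasing sequences: `b` is below `c`
iff the least element of the symmetric difference lies in `b`. -/
def KBlt (b c : Finset ℕ) : Prop := ∃ k, k ∈ b ∧ k ∉ c ∧ ∀ i < k, (i ∈ b ↔ i ∈ c)

/-- Kleene-Brouwer order, weak version. -/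
def KBle (b c : Finset ℕ) : Prop := b = c ∨ KBlt b c

theorem KB_total (b c : Finset ℕ) : b = c ∨ KBlt b c ∨ KBlt c b := by
  classical
  by_cases h : b = c
  · exact Or.inl h
  · right
    have hne : ∃ k, ¬ (k ∈ b ↔ k ∈ c) := by
      by_contra hcon
      push Not at hcon
      exact h (Finset.ext fun k => hcon k)
    have hk := Nat.find_spec hne
    have hmin : ∀ i < Nat.find hne, (i ∈ b ↔ i ∈ c) := fun i hi => by
      have := Nat.find_min hne hi
      push Not at this
      exact this
    by_cases hb : Nat.find hne ∈ b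
    · left
      exact ⟨_, hb, fun hc => hk ⟨fun _ => hc, fun _ => hb⟩, hmin⟩
    · right
      refine ⟨Nat.find hne, ?_, hb, fun i hi => (hmin i hi).symm⟩
      by_contra hc
      exact hk ⟨fun h => absurd h hb, fun h => absurd h hc⟩

/-- Small sets. -/
def Small (N : ℕ) : ℕ → Finset ℕ → Prop
  | 0, X => X.card ≤ 1
  | k + 1, X =>
    (∃ F : ℕ → Finset ℕ, (∀ c < N, Small N k (F c)) ∧ ∀ x ∈ X, ∃ c < N, x ∈ F c) ∨
    (∃ b : ℕ → Finset ℕ, (∀ j ∈ X, j ∈ b j ∧ Small N k (b j)) ∧
      ∀ i ∈ X, ∀ j ∈ X, i < j → KBle (b j) (b i))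

theorem Small.subset {N k : ℕ} {X Y : Finset ℕ} (h : Small N k X) (hY : Y ⊆ X) :
    Small N k Y := by
  cases k with
  | zero => exact le_trans (Finset.card_le_card hY) h
  | succ k =>
    rcases h with ⟨F, hF, hX⟩ | ⟨b, hb, hX⟩
    · exact Or.inl ⟨F, hF, fun x hx => hX x (hY hx)⟩
    · exact Or.inr ⟨b, fun j hj => hb j (hY hj), fun i hi j hj => hX i (hY hi) j (hY hj)⟩

theorem Small.succ {N k : ℕ} (hN : 1 ≤ N) {X : Finset ℕ} (h : Small N k X) :
    Small N (k + 1) X :=
  Or.inl ⟨fun _ => X, fun _ _ => h, fun _ hx => ⟨0, by omega, hx⟩⟩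

theorem Small.mono {N k l : ℕ} (hN : 1 ≤ N) (hkl : k ≤ l) {X : Finset ℕ} (h : Small N k X) :
    Small N l X := by
  induction l, hkl using Nat.le_induction with
  | base => exact h
  | succ l _ ih => exact ih.succ hN

theorem small_empty (N k : ℕ) : Small N k ∅ := by
  cases k with
  | zero => simp [Small]
  | succ k => exact Or.inr ⟨fun _ => ∅, by simp, by simp⟩

theorem small_union {N k : ℕ} {X : Finset ℕ} (F : ℕ → Finset ℕ) (hF : ∀ c < N, Small N k (F c))
    (hX : ∀ x ∈ X, ∃ c < N, x ∈ F c) : Small N (k + 1) X :=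
  Or.inl ⟨F, hF, hX⟩

theorem small_kb {N k : ℕ} {X : Finset ℕ} (b : ℕ → Finset ℕ)
    (hb : ∀ j ∈ X, j ∈ b j ∧ Small N k (b j))
    (hX : ∀ i ∈ X, ∀ j ∈ X, i < j → KBle (b j) (b i)) : Small N (k + 1) X :=
  Or.inr ⟨b, hb, hX⟩

/-- Sets with at most `N` elements are small of rank `1`. -/
theorem small_of_card_le {N k : ℕ} {X : Finset ℕ} (hN : 1 ≤ N) (h : X.card ≤ N) :
    Small N (k + 1) X := by
  classical
  refine Small.mono hN (Nat.succ_le_succ (Nat.zero_le k)) ?_
  refine Or.inl ⟨fun c => if h : c < X.card then {X.orderEmbOfFin rfl ⟨c, h⟩} else ∅, ?_, ?_⟩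
  · intro c _
    simp only [Small]
    split_ifs <;> simp
  · intro x hx
    have hx' : x ∈ Set.range (X.orderEmbOfFin rfl) := by
      rw [Finset.range_orderEmbOfFin]; exact hx
    obtain ⟨⟨c, hc⟩, rfl⟩ := hx'
    exact ⟨c, by omega, by simp [hc]⟩

theorem card_gt_of_not_small {N k : ℕ} {X : Finset ℕ} (hN : 1 ≤ N)
    (h : ¬ Small N (k + 1) X) : N < X.card := by
  by_contra hcon
  exact h (small_of_card_le hN (by omega))

/-- No infinite set has all its finite subsets small of a fixed rank. -/
theorem exists_not_small_of_infinite (N : ℕ) : ∀ (k : ℕ) (Y : Set ℕ), Y.Infinite →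
    ∃ F : Finset ℕ, (↑F : Set ℕ) ⊆ Y ∧ ¬ Small N k F := by
  classical
  intro k
  induction k with
  | zero =>
    intro Y hY
    obtain ⟨F, hF, hc⟩ := hY.exists_subset_card_eq 2
    exact ⟨F, hF, by simp [Small, hc]⟩
  | succ k ih =>
    intro Y hY
    by_contra hcon
    push Not at hcon
    -- initial segments
    let Fn : ℕ → Finset ℕ := fun n => (Finset.range n).filter (· ∈ Y)
    have hFn : ∀ n, (↑(Fn n) : Set ℕ) ⊆ Y := by
      intro n x hx
      simp only [Fn, Finset.coe_filter, Finset.mem_range, Set.mem_ofPred_eq] at hx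
      exact hx.2
    have hmem : ∀ n x, x ∈ Fn n ↔ x < n ∧ x ∈ Y := by
      intro n x; simp [Fn]
    have hS : ∀ n, Small N (k + 1) (Fn n) := fun n => hcon _ (hFn n)
    let U : Ultrafilter ℕ := Filter.hyperfilter ℕ
    have hge : ∀ m : ℕ, ∀ᶠ n in (U : Filter ℕ), m < n := by
      intro m
      have : ∀ᶠ n in Filter.atTop, m < n := Filter.eventually_gt_atTop m
      rw [← Nat.cofinite_eq_atTop] at this
      exact Filter.Eventually.filter_mono (Filter.hyperfilter_le_cofinite) this
    let TU : ℕ → Prop := fun n =>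
      ∃ F : ℕ → Finset ℕ, (∀ c < N, Small N k (F c)) ∧ ∀ x ∈ Fn n, ∃ c < N, x ∈ F c
    let TK : ℕ → Prop := fun n =>
      ∃ b : ℕ → Finset ℕ, (∀ j ∈ Fn n, j ∈ b j ∧ Small N k (b j)) ∧
      ∀ i ∈ Fn n, ∀ j ∈ Fn n, i < j → KBle (b j) (b i)
    have hor : (∀ᶠ n in (U : Filter ℕ), TU n) ∨ (∀ᶠ n in (U : Filter ℕ), TK n) := by
      rw [← Ultrafilter.eventually_or]
      exact Filter.Eventually.of_forall hS
    rcases hor with hU | hK
    · -- colour classes
      choose! F hF hFx using (fun n (h : TU n) => h)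
      have hc : ∀ x ∈ Y, ∃ c < N, ∀ᶠ n in (U : Filter ℕ), x ∈ F n c := by
        intro x hx
        by_contra hno
        push Not at hno
        have h1 : ∀ c ∈ Finset.range N, ∀ᶠ n in (U : Filter ℕ), x ∉ F n c := by
          intro c hc
          exact hno c (Finset.mem_range.mp hc)
        have h2 : ∀ᶠ n in (U : Filter ℕ), ∀ c ∈ Finset.range N, x ∉ F n c :=
          (Filter.eventually_all_finset _).mpr h1
        obtain ⟨n, hn, hn1, hn2⟩ := (h2.and (hU.and (hge x))).exists
        obtain ⟨c, hc, hxc⟩ := hFx n hn1 x ((hmem n x).mpr ⟨hn2, hx⟩)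
        exact hn c (Finset.mem_range.mpr hc) hxc
      choose! col hcolN hcol using hc
      have hfin : ∃ c, (Y ∩ {x | col x = c}).Infinite := by
        by_contra hno
        push Not at hno
        have : Y ⊆ ⋃ c ∈ Finset.range N, (Y ∩ {x | col x = c}) := by
          intro x hx
          simp only [Set.mem_iUnion, Finset.mem_range]
          exact ⟨col x, hcolN x hx, hx, rfl⟩
        exact hY (Set.Finite.subset ((Finset.range N).finite_toSet.biUnion
          (fun c _ => hno c)) this)
      obtain ⟨c, hcinf⟩ := hfin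
      obtain ⟨G, hG, hGs⟩ := ih _ hcinf
      have hGc : ∀ x ∈ G, ∀ᶠ n in (U : Filter ℕ), x ∈ F n c := by
        intro x hx
        have := hG hx
        have h2 := hcol x this.1
        rwa [this.2] at h2
      have hall : ∀ᶠ n in (U : Filter ℕ), ∀ x ∈ G, x ∈ F n c :=
        (Filter.eventually_all_finset _).mpr hGc
      obtain ⟨n, hn, hn1⟩ := (hall.and hU).exists
      have hcN : c < N := by
        by_cases hGe : G.Nonempty
        · obtain ⟨x, hx⟩ := hGe
          have := hG hx
          rw [← this.2]; exact hcolN x this.1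
        · rw [Finset.not_nonempty_iff_eq_empty] at hGe
          exact absurd (hGe ▸ small_empty N k) hGs
      exact hGs ((hF n hn1 c hcN).subset hn)
    · -- Kleene-Brouwer chains
      choose! b hb hbK using (fun n (h : TK n) => h)
      have hA : ∀ j ∈ Y, ∃ A : Finset ℕ, A ⊆ Finset.range (j + 1) ∧
          ∀ᶠ n in (U : Filter ℕ), (b n j) ∩ Finset.range (j + 1) = A := by
        intro j _
        by_contra hno
        push Not at hno
        have h1 : ∀ A ∈ (Finset.range (j + 1)).powerset,
            ∀ᶠ n in (U : Filter ℕ), (b n j) ∩ Finset.range (j + 1) ≠ A := by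
          intro A hA
          exact hno A (Finset.mem_powerset.mp hA)
        have h2 := (Filter.eventually_all_finset _).mpr h1
        obtain ⟨n, hn⟩ := h2.exists
        exact hn _ (Finset.mem_powerset.mpr Finset.inter_subset_right) rfl
      choose! A hAsub hAev using hA
      have hAj : ∀ j ∈ Y, j ∈ A j ∧ Small N k (A j) := by
        intro j hj
        obtain ⟨n, hn, hn1, hn2⟩ := ((hAev j hj).and (hK.and (hge j))).exists
        have := hb n hn1 j ((hmem n j).mpr ⟨hn2, hj⟩)
        rw [← hn]
        exact ⟨by simp [this.1], this.2.subset Finset.inter_subset_left⟩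
      have hAlt : ∀ i ∈ Y, ∀ j ∈ Y, i < j → KBlt (A j) (A i) := by
        intro i hi j hj hij
        obtain ⟨n, hni, hnj, hn1, hn2⟩ :=
          ((hAev i hi).and ((hAev j hj).and (hK.and (hge j)))).exists
        have hjb := (hb n hn1 j ((hmem n j).mpr ⟨hn2, hj⟩)).1
        have hkb := hbK n hn1 i ((hmem n i).mpr ⟨by omega, hi⟩) j ((hmem n j).mpr ⟨hn2, hj⟩) hij
        rw [← hni, ← hnj]
        -- compare the truncations
        have key : ∃ k, k ≤ j ∧ k ∈ b n j ∧ k ∉ (b n i) ∩ Finset.range (i + 1) := by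
          refine ⟨j, le_refl _, hjb, ?_⟩
          simp; omega
        rcases hkb with heq | ⟨k, hk1, hk2, hk3⟩
        · -- equal
          have hne : ∃ k, k ∈ (b n j) ∩ Finset.range (j + 1) ∧
              k ∉ (b n i) ∩ Finset.range (i + 1) :=
            ⟨j, by simp [hjb], by simp; omega⟩
          refine ⟨Nat.find hne, (Nat.find_spec hne).1, (Nat.find_spec hne).2, ?_⟩
          intro l hl
          have hmin := Nat.find_min hne hl
          push Not at hmin
          refine ⟨hmin, ?_⟩
          rw [heq]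
          simp only [Finset.mem_inter, Finset.mem_range]
          intro h
          exact ⟨h.1, by omega⟩
        · by_cases hki : k ≤ i
          · refine ⟨k, by simp [hk1]; omega, by simp [hk2], ?_⟩
            intro l hl
            simp only [Finset.mem_inter, Finset.mem_range]
            have := hk3 l hl
            constructor
            · rintro ⟨h1, h2⟩
              exact ⟨this.mp h1, by omega⟩
            · rintro ⟨h1, h2⟩
              exact ⟨this.mpr h1, by omega⟩
          · have hne : ∃ k, k ∈ (b n j) ∩ Finset.range (j + 1) ∧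
              k ∉ (b n i) ∩ Finset.range (i + 1) :=
              ⟨j, by simp [hjb], by simp; omega⟩
            refine ⟨Nat.find hne, (Nat.find_spec hne).1, (Nat.find_spec hne).2, ?_⟩
            intro l hl
            have hmin := Nat.find_min hne hl
            push Not at hmin
            refine ⟨hmin, ?_⟩
            simp only [Finset.mem_inter, Finset.mem_range]
            rintro ⟨h1, h2⟩
            exact ⟨(hk3 l (by omega)).mpr h1, by omega⟩
      -- the limit path
      have hYne : (Filter.cofinite ⊓ Filter.principal Y : Filter ℕ).NeBot := by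
        rw [Filter.inf_principal_neBot_iff]
        intro s hs
        rw [Filter.mem_cofinite] at hs
        by_contra hemp
        rw [Set.not_nonempty_iff_eq_empty] at hemp
        apply hY
        apply hs.subset
        intro y hy hys
        have : y ∈ s ∩ Y := ⟨hys, hy⟩
        rw [hemp] at this
        exact this
      let V : Ultrafilter ℕ := Ultrafilter.of (Filter.cofinite ⊓ Filter.principal Y)
      have hV : (V : Filter ℕ) ≤ Filter.cofinite ⊓ Filter.principal Y := Ultrafilter.of_le _
      have hVY : ∀ᶠ j in (V : Filter ℕ), j ∈ Y :=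
        hV.trans inf_le_right (Filter.mem_principal_self Y)
      have hVgt : ∀ m : ℕ, ∀ᶠ j in (V : Filter ℕ), m < j := by
        intro m
        have : ∀ᶠ n in Filter.atTop, m < n := Filter.eventually_gt_atTop m
        rw [← Nat.cofinite_eq_atTop] at this
        exact Filter.Eventually.filter_mono (hV.trans inf_le_left) this
      let Z : Set ℕ := {z | ∀ᶠ j in (V : Filter ℕ), z ∈ A j}
      have hZiff : ∀ z, ∀ᶠ j in (V : Filter ℕ), (z ∈ A j ↔ z ∈ Z) := by
        intro z
        by_cases hz : z ∈ Z
        · have hz' : ∀ᶠ j in (V : Filter ℕ), z ∈ A j := hz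
          filter_upwards [hz'] with j hj
          exact ⟨fun _ => hz, fun _ => hj⟩
        · have hz' : ¬ ∀ᶠ j in (V : Filter ℕ), z ∈ A j := hz
          rw [← Ultrafilter.eventually_not] at hz'
          filter_upwards [hz'] with j hj
          exact ⟨fun h => absurd h hj, fun h => absurd h hz⟩
      have hZall : ∀ m : ℕ, ∀ᶠ j in (V : Filter ℕ), ∀ z < m, (z ∈ A j ↔ z ∈ Z) := by
        intro m
        have : ∀ᶠ j in (V : Filter ℕ), ∀ z ∈ Finset.range m, (z ∈ A j ↔ z ∈ Z) :=
          (Filter.eventually_all_finset _).mpr (fun z _ => hZiff z)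
        filter_upwards [this] with j hj z hz
        exact hj z (Finset.mem_range.mpr hz)
      have hZinf : Z.Infinite := by
        intro hfin
        obtain ⟨m, hm⟩ : ∃ m, ∀ z ∈ Z, z < m := by
          obtain ⟨m, hm⟩ := hfin.bddAbove
          exact ⟨m + 1, fun z hz => Nat.lt_succ_of_le (hm hz)⟩
        obtain ⟨j0, hj0Y, hj0m, hj0⟩ := (hVY.and ((hVgt m).and (hZall m))).exists
        obtain ⟨j, hjY, hjgt, hj⟩ := (hVY.and ((hVgt j0).and (hZall (j0 + 1)))).exists
        obtain ⟨k, hk1, hk2, hk3⟩ := hAlt j0 hj0Y j hjY hjgt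
        by_cases hkj : k ≤ j0
        · have hkZ : k ∈ Z := (hj k (by omega)).mp hk1
          exact hk2 ((hj0 k (hm k hkZ)).mpr hkZ)
        · have h1 : j0 ∈ A j := (hk3 j0 (by omega)).mpr (hAj j0 hj0Y).1
          have h2 : j0 ∈ Z := (hj j0 (by omega)).mp h1
          exact absurd (hm j0 h2) (by omega)
      obtain ⟨G, hG, hGs⟩ := ih Z hZinf
      have hall : ∀ᶠ j in (V : Filter ℕ), ∀ x ∈ G, x ∈ A j :=
        (Filter.eventually_all_finset _).mpr (fun x hx => hG hx)
      obtain ⟨j, hj, hjY⟩ := (hall.and hVY).exists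
      exact hGs ((hAj j hjY).2.subset hj)

/-- Main result: initial segments of labels which are not small. -/
theorem exists_range_not_small (N k : ℕ) : ∃ M, ¬ Small N k (Finset.range M) := by
  obtain ⟨F, -, hF⟩ := exists_not_small_of_infinite N k Set.univ Set.infinite_univ
  refine ⟨F.sup id + 1, fun h => hF (h.subset ?_)⟩
  intro x hx
  exact Finset.mem_range.mpr (Nat.lt_succ_of_le (Finset.le_sup (f := id) hx))

end Pool.Agent.Helper42.Ext
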