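import Mathlib
import Pool.Agent.Helper42.Ext.Small

/-! Finite combinatorics for MP_9b0a74_lc: block trees, traversals and the linear extension. -/

namespace Pool.Agent.Helper42.Ext

open scoped Classical

/-- A geometry of nodes (coded by numbers).  Every node `p` carries the interval
`[lo p, hi p)`; a node of positive level has the children `child p j`, `j < Mx p`. -/
structure Geo where
  child : ℕ → ℕ → ℕ
  lvl : ℕ → ℕ
  lo : ℕ → ℕ
  hi : ℕ → ℕ
  Mx : ℕ → ℕ
  lo_pos : ∀ p, 1 ≤ lo p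
  lo_le_hi : ∀ p, lo p < hi p
  lvl_child : ∀ p j, lvl (child p j) = lvl p - 1
  g1 : ∀ p j, 1 ≤ lvl p → j < Mx p → lo p * 2 ^ Mx p ≤ lo (child p j)
  g1' : ∀ p, 1 ≤ lvl p → lo p * 2 ^ Mx p ≤ hi p
  g2 : ∀ p i j, 1 ≤ lvl p → i < j → j < Mx p → hi (child p i) ≤ lo (child p j)
  g3 : ∀ p j, 1 ≤ lvl p → j < Mx p → hi (child p j) ≤ hi p

/-- A chain: numerically increasing, `P`-decreasing. -/
def IsCh (P : ℕ → ℕ → Prop) (S : Set ℕ) : Prop := ∀ x ∈ S, ∀ y ∈ S, x < y → P y x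

/-- Traversal of depth `δ` of the node `p` by the set `S`, with smallness rank `m`. -/
noncomputable def trav (G : Geo) (I : ℕ → Finset ℕ) (m : ℕ) : ℕ → ℕ → Set ℕ → Prop
  | 0, p, S => ∃ x ∈ S, G.lo p ≤ x ∧ x < G.hi p
  | δ + 1, p, S =>
    ¬ Small (G.lo p) m ((I p).filter fun j => trav G I m δ (G.child p j) S)

section basic

variable {G : Geo} {I I' : ℕ → Finset ℕ}

theorem Geo.lo_child (G : Geo) {p j : ℕ} (hp : 1 ≤ G.lvl p) (hj : j < G.Mx p) :
    G.lo p ≤ G.lo (G.child p j) :=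
  le_trans (Nat.le_mul_of_pos_right _ (by positivity)) (G.g1 p j hp hj)

theorem trav_mono (hI : ∀ p, I p ⊆ I' p) (hI' : ∀ p, I p ⊆ Finset.range (G.Mx p)) {m m' : ℕ}
    (hm : m ≤ m') : ∀ (δ p : ℕ) (S S' : Set ℕ), δ ≤ G.lvl p →
      (∀ x ∈ S, G.lo p ≤ x → x < G.hi p → x ∈ S') →
      trav G I m' δ p S → trav G I' m δ p S' := by
  intro δ
  induction δ with
  | zero =>
    rintro p S S' - hS ⟨x, hx, h1, h2⟩
    exact ⟨x, hS x hx h1 h2, h1, h2⟩
  | succ δ ih =>
    intro p S S' hδ hS h hsm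
    apply h
    refine (hsm.mono (G.lo_pos p) hm).subset ?_
    intro j hj
    rw [Finset.mem_filter] at hj ⊢
    have hjr := Finset.mem_range.mp (hI' p hj.1)
    refine ⟨hI p hj.1, ih _ S S' ?_ ?_ hj.2⟩
    · rw [G.lvl_child]; omega
    · intro x hx h1 h2
      exact hS x hx (le_trans (G.lo_child (by omega) hjr) h1)
        (lt_of_lt_of_le h2 (G.g3 p j (by omega) hjr))

theorem trav_nonempty (hI' : ∀ p, I p ⊆ Finset.range (G.Mx p)) {m : ℕ} :
    ∀ (δ p : ℕ) (S : Set ℕ), δ ≤ G.lvl p → trav G I m δ p S →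
      ∃ x ∈ S, G.lo p ≤ x ∧ x < G.hi p := by
  intro δ
  induction δ with
  | zero => intro p S _ h; exact h
  | succ δ ih =>
    intro p S hδ h
    by_contra hno
    apply h
    convert small_empty (G.lo p) m
    rw [Finset.filter_eq_empty_iff]
    intro j hj htr
    have hjr := Finset.mem_range.mp (hI' p hj)
    obtain ⟨x, hx, h1, h2⟩ := ih _ S (by rw [G.lvl_child]; omega) htr
    exact hno ⟨x, hx, le_trans (G.lo_child (by omega) hjr) h1,
      lt_of_lt_of_le h2 (G.g3 p j (by omega) hjr)⟩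

theorem trav_child {m δ p : ℕ} {S : Set ℕ} (h : trav G I m (δ + 1) p S) :
    ∃ j ∈ I p, trav G I m δ (G.child p j) S := by
  by_contra hno
  apply h
  convert small_empty (G.lo p) m
  rw [Finset.filter_eq_empty_iff]
  intro j hj htr
  exact hno ⟨j, hj, htr⟩

theorem trav_pred (hI' : ∀ p, I p ⊆ Finset.range (G.Mx p)) {m : ℕ} :
    ∀ (δ p : ℕ) (S : Set ℕ), δ + 1 ≤ G.lvl p → trav G I m (δ + 1) p S → trav G I m δ p S := by
  intro δ
  induction δ with
  | zero => intro p S hδ h; exact trav_nonempty hI' 1 p S hδ h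
  | succ δ ih =>
    intro p S hδ h hsm
    apply h
    refine hsm.subset ?_
    intro j hj
    rw [Finset.mem_filter] at hj ⊢
    exact ⟨hj.1, ih _ S (by rw [G.lvl_child]; omega) hj.2⟩

theorem trav_le (hI' : ∀ p, I p ⊆ Finset.range (G.Mx p)) {m : ℕ} {δ δ' p : ℕ} {S : Set ℕ}
    (hδ : δ' ≤ G.lvl p) (hle : δ ≤ δ') (h : trav G I m δ' p S) : trav G I m δ p S := by
  induction δ', hle using Nat.le_induction with
  | base => exact h
  | succ n _ ih => exact ih (by omega) (trav_pred hI' n p S hδ h)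

/-- Splitting a traversal into few classes. -/
theorem trav_split (hI' : ∀ p, I p ⊆ Finset.range (G.Mx p)) {m R : ℕ} {ρ : ℕ → ℕ} :
    ∀ (δ p : ℕ) (S : Set ℕ), δ ≤ G.lvl p → R ≤ G.lo p →
      (∀ x ∈ S, G.lo p ≤ x → x < G.hi p → ρ x < R) →
      trav G I (m + 1) δ p S → ∃ v < R, trav G I m δ p (S ∩ {x | ρ x = v}) := by
  classical
  intro δ
  induction δ with
  | zero =>
    rintro p S - - hS ⟨x, hx, h1, h2⟩
    exact ⟨ρ x, hS x hx h1 h2, x, ⟨hx, rfl⟩, h1, h2⟩
  | succ δ ih =>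
    intro p S hδ hR hS h
    by_contra hno
    push Not at hno
    apply h
    refine small_union (fun c => if c < R then (I p).filter
      (fun j => trav G I m δ (G.child p j) (S ∩ {x | ρ x = c})) else ∅) ?_ ?_
    · intro c _
      split_ifs with hc
      · have := hno c hc
        simp only [trav, not_not] at this
        exact this
      · exact small_empty _ _
    · intro j hj
      rw [Finset.mem_filter] at hj
      have hjr := Finset.mem_range.mp (hI' p hj.1)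
      have hlo := G.lo_child (p := p) (by omega) hjr
      obtain ⟨v, hv, htr⟩ := ih (G.child p j) S (by rw [G.lvl_child]; omega)
        (le_trans hR hlo) (fun x hx h1 h2 => hS x hx (le_trans hlo h1)
          (lt_of_lt_of_le h2 (G.g3 p j (by omega) hjr))) hj.2
      refine ⟨v, lt_of_lt_of_le hv hR, ?_⟩
      simp only [hv, if_true, Finset.mem_filter]
      exact ⟨hj.1, htr⟩

end basic

/-! ### weights -/

/-- Weight of a set of labels below `M`; the smaller labels weigh more. -/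
def wt (M : ℕ) (b : Finset ℕ) : ℕ := ∑ k ∈ b, 2 ^ (M - 1 - k)

theorem wt_range (M : ℕ) : wt M (Finset.range M) = 2 ^ M - 1 := by
  unfold wt
  rw [Finset.sum_range_reflect (fun k => 2 ^ k) M]
  rw [Nat.geomSum_eq (le_refl 2)]
  simp

theorem wt_lt {M : ℕ} {b : Finset ℕ} (hb : b ⊆ Finset.range M) : wt M b < 2 ^ M := by
  have h1 : wt M b ≤ wt M (Finset.range M) := Finset.sum_le_sum_of_subset hb
  rw [wt_range] at h1
  have : 0 < 2 ^ M := by positivity
  omega

theorem wt_tail {M k : ℕ} (hk : k < M) {c : Finset ℕ} (hc : c ⊆ Finset.range M)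
    (hck : ∀ i ∈ c, k < i) : wt M c < 2 ^ (M - 1 - k) := by
  have h1 : wt M c ≤ wt M ((Finset.range M).filter (k < ·)) := by
    apply Finset.sum_le_sum_of_subset
    intro i hi
    exact Finset.mem_filter.mpr ⟨hc hi, hck i hi⟩
  have h2 : wt M ((Finset.range M).filter (k < ·)) = 2 ^ (M - 1 - k) - 1 := by
    have : (Finset.range M).filter (k < ·) =
        (Finset.range (M - 1 - k)).map (addRightEmbedding (k + 1)) := by
      ext i
      simp only [Finset.mem_filter, Finset.mem_range, Finset.mem_map, addRightEmbedding_apply]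
      constructor
      · rintro ⟨h1, h2⟩
        exact ⟨i - (k + 1), by omega, by omega⟩
      · rintro ⟨j, hj, rfl⟩
        omega
    unfold wt
    rw [this, Finset.sum_map]
    have h3 : ∑ x ∈ Finset.range (M - 1 - k), 2 ^ (M - 1 - (addRightEmbedding (k + 1)) x) =
        ∑ x ∈ Finset.range (M - 1 - k), 2 ^ (M - 1 - k - 1 - x) := by
      apply Finset.sum_congr rfl
      intro x _
      congr 1
      simp only [addRightEmbedding_apply]
      omega
    rw [h3]
    exact wt_range (M - 1 - k)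
  have : 0 < 2 ^ (M - 1 - k) := by positivity
  omega

theorem wt_lt_of_KBlt {M : ℕ} {b c : Finset ℕ} (hb : b ⊆ Finset.range M)
    (hc : c ⊆ Finset.range M) (h : KBlt b c) : wt M c < wt M b := by
  classical
  obtain ⟨k, hkb, hkc, hk⟩ := h
  have hkM : k < M := Finset.mem_range.mp (hb hkb)
  have hsplit : ∀ a : Finset ℕ, wt M a = wt M (a.filter (· < k)) +
      wt M (a.filter (fun i => ¬ i < k)) := by
    intro a
    unfold wt
    exact (Finset.sum_filter_add_sum_filter_not a (· < k) _).symm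
  have heq : b.filter (· < k) = c.filter (· < k) := by
    ext i
    simp only [Finset.mem_filter]
    constructor
    · rintro ⟨h1, h2⟩; exact ⟨(hk i h2).mp h1, h2⟩
    · rintro ⟨h1, h2⟩; exact ⟨(hk i h2).mpr h1, h2⟩
  have h1 : wt M (c.filter (fun i => ¬ i < k)) < 2 ^ (M - 1 - k) := by
    apply wt_tail hkM ((Finset.filter_subset _ _).trans hc)
    intro i hi
    rw [Finset.mem_filter] at hi
    rcases Nat.lt_or_ge k i with h | h
    · exact h
    · have : i = k := by omega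
      exact absurd (this ▸ hi.1) hkc
  have h2 : 2 ^ (M - 1 - k) ≤ wt M (b.filter (fun i => ¬ i < k)) := by
    unfold wt
    exact Finset.single_le_sum (f := fun k => 2 ^ (M - 1 - k)) (fun _ _ => Nat.zero_le _)
      (Finset.mem_filter.mpr ⟨hkb, by omega⟩)
  rw [hsplit b, hsplit c, heq]
  omega

theorem wt_inj {M : ℕ} {b c : Finset ℕ} (hb : b ⊆ Finset.range M)
    (hc : c ⊆ Finset.range M) (h : wt M b = wt M c) : b = c := by
  rcases KB_total b c with h1 | h1 | h1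
  · exact h1
  · exact absurd h (ne_of_gt (wt_lt_of_KBlt hb hc h1))
  · exact absurd h (ne_of_lt (wt_lt_of_KBlt hc hb h1))

theorem KBle_of_wt_le {M : ℕ} {b c : Finset ℕ} (hb : b ⊆ Finset.range M)
    (hc : c ⊆ Finset.range M) (h : wt M b ≤ wt M c) : KBle c b := by
  rcases KB_total b c with h1 | h1 | h1
  · exact Or.inl h1.symm
  · exact absurd h (not_le_of_gt (wt_lt_of_KBlt hb hc h1))
  · exact Or.inr h1

/-! ### one update of the rank -/

section rank

variable (G : Geo) (I : ℕ → Finset ℕ) (P : ℕ → ℕ → Prop) (m : ℕ)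

/-- `b` is realised above `x`. -/
def SeqP (δ p : ℕ) (ρ : ℕ → ℕ) (x : ℕ) (b : Finset ℕ) : Prop :=
  ∃ S : Set ℕ, IsCh P S ∧ (∀ y ∈ S, G.lo p ≤ y ∧ y < G.hi p) ∧ (∀ y ∈ S, ρ y = ρ x) ∧
    (∀ y ∈ S, P x y) ∧ ∀ j ∈ b, trav G I m (δ - 1) (G.child p j) S

noncomputable def val (δ p : ℕ) (ρ : ℕ → ℕ) (x : ℕ) : ℕ :=
  ((I p).powerset.filter (SeqP G I P m δ p ρ x)).sup (wt (G.Mx p))

noncomputable def upd (δ p : ℕ) (ρ : ℕ → ℕ) (x : ℕ) : ℕ :=
  ρ x * 2 ^ G.Mx p + (2 ^ G.Mx p - 1 - val G I P m δ p ρ x)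

def Mono (P : ℕ → ℕ → Prop) (ρ : ℕ → ℕ) : Prop := ∀ x y, P x y → ρ x ≤ ρ y

def Refines (ρ' ρ : ℕ → ℕ) : Prop := ∀ x y, ρ x < ρ y → ρ' x < ρ' y

theorem Refines.refl (ρ : ℕ → ℕ) : Refines ρ ρ := fun _ _ h => h

theorem Refines.trans {ρ ρ' ρ'' : ℕ → ℕ} (h : Refines ρ'' ρ') (h' : Refines ρ' ρ) :
    Refines ρ'' ρ := fun x y hxy => h x y (h' x y hxy)

theorem Refines.eq {ρ ρ' : ℕ → ℕ} (h : Refines ρ' ρ) {x y : ℕ} (hxy : ρ' x = ρ' y) :
    ρ x = ρ y := by
  rcases lt_trichotomy (ρ x) (ρ y) with h1 | h1 | h1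
  · exact absurd hxy (ne_of_lt (h x y h1))
  · exact h1
  · exact absurd hxy (ne_of_gt (h y x h1))

variable {G I P m}

theorem exists_val (δ p : ℕ) (ρ : ℕ → ℕ) (x : ℕ) :
    ∃ b, b ⊆ I p ∧ SeqP G I P m δ p ρ x b ∧ wt (G.Mx p) b = val G I P m δ p ρ x := by
  classical
  have hne : ((I p).powerset.filter (SeqP G I P m δ p ρ x)).Nonempty := by
    refine ⟨∅, ?_⟩
    rw [Finset.mem_filter]
    refine ⟨by simp, ∅, ?_, ?_, ?_, ?_, ?_⟩
    · intro x hx; exact absurd hx (Set.notMem_empty x)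
    · intro x hx; exact absurd hx (Set.notMem_empty x)
    · intro x hx; exact absurd hx (Set.notMem_empty x)
    · intro x hx; exact absurd hx (Set.notMem_empty x)
    · simp
  obtain ⟨b, hb, hbe⟩ := Finset.exists_mem_eq_sup _ hne (wt (G.Mx p))
  rw [Finset.mem_filter, Finset.mem_powerset] at hb
  exact ⟨b, hb.1, hb.2, hbe.symm⟩

theorem wt_le_val {δ p : ℕ} {ρ : ℕ → ℕ} {x : ℕ} {b : Finset ℕ} (hb : b ⊆ I p)
    (h : SeqP G I P m δ p ρ x b) : wt (G.Mx p) b ≤ val G I P m δ p ρ x := by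
  classical
  exact Finset.le_sup (f := wt (G.Mx p))
    (Finset.mem_filter.mpr ⟨Finset.mem_powerset.mpr hb, h⟩)

theorem val_lt (hI' : ∀ p, I p ⊆ Finset.range (G.Mx p)) (δ p : ℕ) (ρ : ℕ → ℕ) (x : ℕ) :
    val G I P m δ p ρ x < 2 ^ G.Mx p := by
  obtain ⟨b, hb, -, h⟩ := exists_val (G := G) (I := I) (P := P) (m := m) δ p ρ x
  rw [← h]
  exact wt_lt (hb.trans (hI' p))

theorem upd_refines (δ p : ℕ) (ρ : ℕ → ℕ) :
    Refines (upd G I P m δ p ρ) ρ := by
  intro x y h
  unfold upd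
  have h1 : ρ x * 2 ^ G.Mx p + 2 ^ G.Mx p ≤ ρ y * 2 ^ G.Mx p := by
    rw [← Nat.succ_mul]
    exact Nat.mul_le_mul_right _ h
  have h2 : 0 < 2 ^ G.Mx p := by positivity
  omega

theorem upd_le_iff (hI' : ∀ p, I p ⊆ Finset.range (G.Mx p)) {δ p : ℕ} {ρ : ℕ → ℕ} {x y : ℕ}
    (h : ρ x = ρ y) : upd G I P m δ p ρ x ≤ upd G I P m δ p ρ y ↔
      val G I P m δ p ρ y ≤ val G I P m δ p ρ x := by
  unfold upd
  rw [h]
  have h1 := val_lt (P := P) (m := m) hI' δ p ρ x
  have h2 := val_lt (P := P) (m := m) hI' δ p ρ y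
  omega

theorem upd_mono (hI' : ∀ p, I p ⊆ Finset.range (G.Mx p))
    (htr : ∀ x y z, P x y → P y z → P x z) {δ p : ℕ} {ρ : ℕ → ℕ} (hρ : Mono P ρ) :
    Mono P (upd G I P m δ p ρ) := by
  intro x y hxy
  rcases Nat.lt_or_ge (ρ x) (ρ y) with h | h
  · exact le_of_lt (upd_refines δ p ρ x y h)
  · have he : ρ x = ρ y := le_antisymm (hρ x y hxy) h
    rw [upd_le_iff hI' he]
    obtain ⟨b, hb, ⟨S, h1, h2, h3, h4, h5⟩, hv⟩ := exists_val (G := G) (I := I) (P := P) (m := m) δ p ρ y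
    rw [← hv]
    exact wt_le_val hb ⟨S, h1, h2, fun z hz => (h3 z hz).trans he.symm,
      fun z hz => htr x y z hxy (h4 z hz), h5⟩

theorem upd_lt {δ p : ℕ} {ρ : ℕ → ℕ} {R : ℕ}
    (hR : ∀ x, ρ x < R) (x : ℕ) : upd G I P m δ p ρ x < R * 2 ^ G.Mx p := by
  unfold upd
  have h1 : ρ x * 2 ^ G.Mx p + 2 ^ G.Mx p ≤ R * 2 ^ G.Mx p := by
    rw [← Nat.succ_mul]
    exact Nat.mul_le_mul_right _ (hR x)
  have h2 : 0 < 2 ^ G.Mx p := by positivity
  omega

/-- Lemma 1: a class carrying a `P`-chain which traverses the child `j` has `j` in its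
optimal set. -/
theorem mem_of_trav (hI' : ∀ p, I p ⊆ Finset.range (G.Mx p))
    (htr : ∀ x y z, P x y → P y z → P x z) (hrefl : ∀ x, P x x)
    {δ p j : ℕ} (hδ : δ ≤ G.lvl p) (hδ1 : 1 ≤ δ) {ρ : ℕ → ℕ} (hj : j ∈ I p) {S' : Set ℕ}
    (hch : IsCh P S') (hin : ∀ y ∈ S', G.lo (G.child p j) ≤ y ∧ y < G.hi (G.child p j))
    (hcl : ∀ x ∈ S', ∀ y ∈ S', upd G I P m δ p ρ x = upd G I P m δ p ρ y)
    (ht : trav G I m (δ - 1) (G.child p j) S') {x : ℕ} (hx : x ∈ S') {b : Finset ℕ}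
    (hb : b ⊆ I p) (hbw : wt (G.Mx p) b = val G I P m δ p ρ x) : j ∈ b := by
  classical
  have hjr := Finset.mem_range.mp (hI' p hj)
  have hp : 1 ≤ G.lvl p := by omega
  -- first and last elements
  have hSfin : S'.Finite := (Set.finite_Iio (G.hi (G.child p j))).subset
    (fun y hy => (hin y hy).2)
  obtain ⟨x0, hx0, hx0min⟩ : ∃ x0 ∈ S', ∀ y ∈ S', x0 ≤ y :=
    ⟨sInf S', Nat.sInf_mem ⟨x, hx⟩, fun y hy => Nat.sInf_le hy⟩
  obtain ⟨x1, hx1, hx1max⟩ : ∃ x1 ∈ S', ∀ y ∈ S', y ≤ x1 := by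
    obtain ⟨x1, h1, h2⟩ := hSfin.toFinset.exists_max_image id ⟨x, by simpa using hx⟩
    exact ⟨x1, by simpa using h1, fun y hy => h2 y (by simpa using hy)⟩
  have hP1 : ∀ y ∈ S', P x1 y := by
    intro y hy
    rcases eq_or_lt_of_le (hx1max y hy) with h | h
    · rw [h]; exact hrefl _
    · exact hch y hy x1 hx1 h
  have hP0 : ∀ y ∈ S', P y x0 := by
    intro y hy
    rcases eq_or_lt_of_le (hx0min y hy) with h | h
    · rw [h]; exact hrefl _
    · exact hch x0 hx0 y hy h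
  have hρ : ∀ y ∈ S', ∀ z ∈ S', ρ y = ρ z := fun y hy z hz =>
    (upd_refines (G := G) (I := I) (P := P) (m := m) δ p ρ).eq (hcl y hy z hz)
  have hval : ∀ y ∈ S', ∀ z ∈ S', val G I P m δ p ρ y = val G I P m δ p ρ z := by
    intro y hy z hz
    have h1 := (upd_le_iff (P := P) (m := m) (δ := δ) hI' (hρ y hy z hz)).mp
      (le_of_eq (hcl y hy z hz))
    have h2 := (upd_le_iff (P := P) (m := m) (δ := δ) hI' (hρ z hz y hy)).mp
      (le_of_eq (hcl z hz y hy))
    exact le_antisymm h2 h1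
  -- the optimal set for x0
  obtain ⟨c, hc, ⟨S, hS1, hS2, hS3, hS4, hS5⟩, hcw⟩ :=
    exists_val (G := G) (I := I) (P := P) (m := m) δ p ρ x0
  have hbc : b = c := by
    apply wt_inj (hb.trans (hI' p)) (hc.trans (hI' p))
    rw [hbw, hcw]
    exact hval x hx x0 hx0
  rw [hbc]
  by_contra hjc
  -- the better set
  have hbetter : KBlt (insert j (c.filter (· < j))) c := by
    refine ⟨j, by simp, hjc, ?_⟩
    intro i hi
    simp only [Finset.mem_insert, Finset.mem_filter]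
    constructor
    · rintro (h | h)
      · omega
      · exact h.1
    · intro h; exact Or.inr ⟨h, hi⟩
  have hsub : insert j (c.filter (· < j)) ⊆ I p := by
    intro i hi
    rw [Finset.mem_insert, Finset.mem_filter] at hi
    rcases hi with rfl | h
    · exact hj
    · exact hc h.1
  have hseq : SeqP G I P m δ p ρ x1 (insert j (c.filter (· < j))) := by
    refine ⟨{y | y ∈ S ∧ y < G.lo (G.child p j)} ∪ S', ?_, ?_, ?_, ?_, ?_⟩
    · -- chain
      rintro y (hy | hy) z (hz | hz) hyz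
      · exact hS1 y hy.1 z hz.1 hyz
      · exact htr z x0 y (hP0 z hz) (hS4 y hy.1)
      · exfalso
        have := (hin y hy).1
        have := hz.2
        omega
      · exact hch y hy z hz hyz
    · rintro y (hy | hy)
      · exact hS2 y hy.1
      · have := hin y hy
        exact ⟨le_trans (G.lo_child hp hjr) this.1, lt_of_lt_of_le this.2 (G.g3 p j hp hjr)⟩
    · rintro y (hy | hy)
      · rw [hS3 y hy.1]; exact hρ x0 hx0 x1 hx1
      · exact hρ y hy x1 hx1
    · rintro y (hy | hy)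
      · exact htr x1 x0 y (hP1 x0 hx0) (hS4 y hy.1)
      · exact hP1 y hy
    · intro i hi
      rw [Finset.mem_insert, Finset.mem_filter] at hi
      rcases hi with rfl | ⟨hic, hij⟩
      · exact trav_mono (fun _ => Finset.Subset.refl _) hI' (le_refl m) _ _ _ _
          (by rw [G.lvl_child]; omega) (fun y hy _ _ => Or.inr hy) ht
      · refine trav_mono (fun _ => Finset.Subset.refl _) hI' (le_refl m) _ _ _ _
          (by rw [G.lvl_child]; omega) (fun y hy _ hy2 => Or.inl ⟨hy, ?_⟩) (hS5 i hic)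
        exact lt_of_lt_of_le hy2 (G.g2 p i j hp hij hjr)
  have h1 := wt_le_val hsub hseq
  have h2 := wt_lt_of_KBlt (hsub.trans (hI' p)) (hc.trans (hI' p)) hbetter
  rw [hval x1 hx1 x0 hx0, ← hcw] at h1
  omega

end rank

end Pool.Agent.Helper42.Ext
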