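import Mathlib
import Pool.Agent.Helper42.Ext.Fin

/-! Theorem F: the linear extension (for MP_9b0a74_lc). -/

namespace Pool.Agent.Helper42.Ext

open scoped Classical

variable (G : Geo) (I : ℕ → Finset ℕ) (P : ℕ → ℕ → Prop) (m d : ℕ)

def nx (d δ : ℕ) : ℕ := if δ ≤ 1 then d else δ - 1

noncomputable def proc : ℕ → ℕ → ℕ → (ℕ → ℕ) → (ℕ → ℕ)
  | 0, _, _, ρ => ρ
  | h + 1, δ, p, ρ =>
    ((I p).sort (· ≤ ·)).foldl (fun ρ j => proc h (nx d δ) (G.child p j) ρ)
      (upd G I P m δ p ρ)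

/-- everything known about a rank function -/
structure OK (P : ℕ → ℕ → Prop) (ρ : ℕ → ℕ) (R : ℕ) : Prop where
  mono : Mono P ρ
  lt : ∀ x, ρ x < R

variable {G I P m d}

theorem fold_lemma (F : ℕ → (ℕ → ℕ) → (ℕ → ℕ)) {p : ℕ} (hp : 1 ≤ G.lvl p)
    (hF : ∀ j < G.Mx p, ∀ ρ, OK P ρ (G.lo (G.child p j)) →
      OK P (F j ρ) (G.hi (G.child p j)) ∧ Refines (F j ρ) ρ) :
    ∀ (l : List ℕ), l.Pairwise (· < ·) → (∀ j ∈ l, j < G.Mx p) → ∀ (ρ : ℕ → ℕ) (R : ℕ),
      OK P ρ R → (∀ j ∈ l, R ≤ G.lo (G.child p j)) → R ≤ G.hi p →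
      OK P (l.foldl (fun ρ j => F j ρ) ρ) (G.hi p) ∧ Refines (l.foldl (fun ρ j => F j ρ) ρ) ρ ∧
      ∀ j ∈ l, ∃ ρj, OK P ρj (G.lo (G.child p j)) ∧ Refines ρj ρ ∧
        Refines (l.foldl (fun ρ j => F j ρ) ρ) (F j ρj) := by
  intro l
  induction l with
  | nil =>
    intro _ _ ρ R hρ _ hR
    refine ⟨⟨hρ.mono, fun x => lt_of_lt_of_le (hρ.lt x) hR⟩, Refines.refl ρ, ?_⟩
    simp
  | cons i l ih =>
    intro hpw hlt ρ R hρ hRl hR
    rw [List.pairwise_cons] at hpw
    have hi := hlt i (by simp)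
    have hρi : OK P ρ (G.lo (G.child p i)) :=
      ⟨hρ.mono, fun x => lt_of_lt_of_le (hρ.lt x) (hRl i (by simp))⟩
    obtain ⟨h1, h2⟩ := hF i hi ρ hρi
    obtain ⟨h3, h4, h5⟩ := ih hpw.2 (fun j hj => hlt j (by simp [hj])) (F i ρ)
      (G.hi (G.child p i)) h1
      (fun j hj => G.g2 p i j hp (hpw.1 j hj) (hlt j (by simp [hj]))) (G.g3 p i hp hi)
    refine ⟨h3, h4.trans h2, ?_⟩
    intro j hj
    rw [List.mem_cons] at hj
    rcases hj with rfl | hj
    · exact ⟨ρ, hρi, Refines.refl ρ, h4⟩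
    · obtain ⟨ρj, a1, a2, a3⟩ := h5 j hj
      exact ⟨ρj, a1, a2.trans h2, a3⟩

theorem proc_ok (hI' : ∀ p, I p ⊆ Finset.range (G.Mx p))
    (htr : ∀ x y z, P x y → P y z → P x z) :
    ∀ (h δ p : ℕ) (ρ : ℕ → ℕ), h ≤ G.lvl p → OK P ρ (G.lo p) →
      OK P (proc G I P m d h δ p ρ) (G.hi p) ∧ Refines (proc G I P m d h δ p ρ) ρ := by
  intro h
  induction h with
  | zero =>
    intro δ p ρ _ hρ
    exact ⟨⟨hρ.mono, fun x => lt_trans (hρ.lt x) (G.lo_le_hi p)⟩, Refines.refl ρ⟩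
  | succ h ih =>
    intro δ p ρ hh hρ
    have hp : 1 ≤ G.lvl p := by omega
    have hupd : OK P (upd G I P m δ p ρ) (G.lo p * 2 ^ G.Mx p) :=
      ⟨upd_mono hI' htr hρ.mono, upd_lt hρ.lt⟩
    have := fold_lemma (P := P) (fun j ρ => proc G I P m d h (nx d δ) (G.child p j) ρ) hp
      (fun j _ ρ hρ => ih (nx d δ) (G.child p j) ρ (by rw [G.lvl_child]; omega) hρ)
      ((I p).sort (· ≤ ·)) (Finset.sortedLT_sort (I p)).pairwise
      (fun j hj => Finset.mem_range.mp (hI' p ((Finset.mem_sort _).mp hj)))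
      (upd G I P m δ p ρ) _ hupd
      (fun j hj => G.g1 p j hp (Finset.mem_range.mp (hI' p ((Finset.mem_sort _).mp hj))))
      (G.g1' p hp)
    exact ⟨this.1, this.2.1.trans (upd_refines δ p ρ)⟩

theorem proc_child (hI' : ∀ p, I p ⊆ Finset.range (G.Mx p))
    (htr : ∀ x y z, P x y → P y z → P x z) {h δ p : ℕ} {ρ : ℕ → ℕ} (hh : h + 1 ≤ G.lvl p)
    (hρ : OK P ρ (G.lo p)) {j : ℕ} (hj : j ∈ I p) :
    ∃ ρj, OK P ρj (G.lo (G.child p j)) ∧ Refines ρj (upd G I P m δ p ρ) ∧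
      Refines (proc G I P m d (h + 1) δ p ρ)
        (proc G I P m d h (nx d δ) (G.child p j) ρj) := by
  have hp : 1 ≤ G.lvl p := by omega
  have hupd : OK P (upd G I P m δ p ρ) (G.lo p * 2 ^ G.Mx p) :=
    ⟨upd_mono hI' htr hρ.mono, upd_lt hρ.lt⟩
  have := fold_lemma (P := P) (fun j ρ => proc G I P m d h (nx d δ) (G.child p j) ρ) hp
    (fun j _ ρ hρ => proc_ok hI' htr h (nx d δ) (G.child p j) ρ
      (by rw [G.lvl_child]; omega) hρ)
    ((I p).sort (· ≤ ·)) (Finset.sortedLT_sort (I p)).pairwise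
    (fun j hj => Finset.mem_range.mp (hI' p ((Finset.mem_sort _).mp hj)))
    (upd G I P m δ p ρ) _ hupd
    (fun j hj => G.g1 p j hp (Finset.mem_range.mp (hI' p ((Finset.mem_sort _).mp hj))))
    (G.g1' p hp)
  exact this.2.2 j ((Finset.mem_sort _).mpr hj)

theorem claimA (hI' : ∀ p, I p ⊆ Finset.range (G.Mx p))
    (htr : ∀ x y z, P x y → P y z → P x z) (hrefl : ∀ x, P x x) (L : ℕ → ℕ → Prop) :
    ∀ (δ : ℕ), 1 ≤ δ → ∀ (h p : ℕ) (ρ : ℕ → ℕ) (v : ℕ), δ ≤ h → h ≤ G.lvl p →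
      OK P ρ (G.lo p) →
      (∀ x y, proc G I P m d h δ p ρ x < proc G I P m d h δ p ρ y → ¬ L y x) →
      (∀ S, IsCh P S → (∀ y ∈ S, G.lo p ≤ y ∧ y < G.hi p) → (∀ y ∈ S, ρ y = v) →
        ¬ trav G I m δ p S) →
      ∀ s, IsCh L s → (∀ y ∈ s, G.lo p ≤ y ∧ y < G.hi p) → (∀ y ∈ s, ρ y = v) →
        ¬ trav G I (m + δ) δ p s := by
  intro δ
  induction δ with
  | zero => intro h; omega
  | succ δ ih =>
    intro _ h p ρ v hδh hhl hρ hL hP s hs hsin hsv htrav
    obtain ⟨h, rfl⟩ : ∃ h', h = h' + 1 := ⟨h - 1, by omega⟩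
    have hp : 1 ≤ G.lvl p := by omega
    -- the claim for each traversed child
    have hC1 : ∀ j ∈ I p, trav G I (m + (δ + 1)) δ (G.child p j) s →
        ∃ x ∈ s, G.lo (G.child p j) ≤ x ∧ x < G.hi (G.child p j) ∧
          ∀ b ⊆ I p, wt (G.Mx p) b = val G I P m (δ + 1) p ρ x → j ∈ b := by
      intro j hj htj
      have hjr := Finset.mem_range.mp (hI' p hj)
      rcases Nat.eq_zero_or_pos δ with h0 | hpos
      · subst h0
        obtain ⟨x, hx, h1, h2⟩ := htj
        refine ⟨x, hx, h1, h2, fun b hb hbw => ?_⟩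
        refine mem_of_trav (P := P) (m := m) (δ := 1) (S' := {x}) hI' htr hrefl hp (le_refl _)
          hj ?_ ?_ ?_ ?_ (Set.mem_singleton x) hb hbw
        · rintro y rfl z rfl hyz; omega
        · rintro y rfl; exact ⟨h1, h2⟩
        · rintro y rfl z rfl; rfl
        · exact ⟨x, rfl, h1, h2⟩
      · obtain ⟨ρj, hok, href, href2⟩ := proc_child (m := m) (d := d) (δ := δ + 1) hI' htr
          hhl hρ hj
        have hlc : δ ≤ G.lvl (G.child p j) := by rw [G.lvl_child]; omega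
        obtain ⟨u, hu, htu⟩ := trav_split (ρ := ρj) hI' δ (G.child p j) s hlc (le_refl _)
          (fun x _ _ _ => hok.lt x) (show trav G I (m + δ + 1) δ (G.child p j) s from htj)
        obtain ⟨x, ⟨hxs, hxu⟩, hx1, hx2⟩ := trav_nonempty hI' δ _ _ hlc htu
        have hnx : nx d (δ + 1) = δ := by unfold nx; split_ifs <;> omega
        -- a P-chain in the class u
        have hex : ∃ S', IsCh P S' ∧ (∀ y ∈ S', G.lo (G.child p j) ≤ y ∧
            y < G.hi (G.child p j)) ∧ (∀ y ∈ S', ρj y = u) ∧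
            trav G I m δ (G.child p j) S' := by
          by_contra hno
          push Not at hno
          refine ih hpos h (G.child p j) ρj u (by omega) (by rw [G.lvl_child]; omega) hok
            ?_ hno ((s ∩ {x | ρj x = u}) ∩ {x | G.lo (G.child p j) ≤ x ∧
              x < G.hi (G.child p j)}) ?_ ?_ ?_ ?_
          · intro a b hab
            apply hL
            apply href2
            rw [hnx]
            exact hab
          · intro a ha b hb hab
            exact hs a ha.1.1 b hb.1.1 hab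
          · intro y hy; exact hy.2
          · intro y hy; exact hy.1.2
          · exact trav_mono (fun _ => Finset.Subset.refl _) hI' (le_refl _) _ _ _ _ hlc
              (fun y hy h1 h2 => ⟨hy, h1, h2⟩) htu
        obtain ⟨S', hS1, hS2, hS3, hS4⟩ := hex
        obtain ⟨x', hx', -, -⟩ := trav_nonempty hI' δ _ _ hlc hS4
        refine ⟨x, hxs, hx1, hx2, fun b hb hbw => ?_⟩
        have hclass : ∀ y, ρj y = u → ∀ z, ρj z = u →
            upd G I P m (δ + 1) p ρ y = upd G I P m (δ + 1) p ρ z := fun y hy z hz =>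
          href.eq (hy.trans hz.symm)
        have hxx' := hclass x hxu x' (hS3 x' hx')
        have hρx := (upd_refines (P := P) (m := m) (I := I) (δ + 1) p ρ).eq hxx'
        have hv : val G I P m (δ + 1) p ρ x = val G I P m (δ + 1) p ρ x' := by
          have h1 := (upd_le_iff (P := P) (m := m) (δ := δ + 1) hI' hρx).mp (le_of_eq hxx')
          have h2 := (upd_le_iff (P := P) (m := m) (δ := δ + 1) hI' hρx.symm).mp
            (le_of_eq hxx'.symm)
          exact le_antisymm h2 h1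
        exact mem_of_trav (P := P) (m := m) (δ := δ + 1) hI' htr hrefl (by omega) (by omega)
          hj hS1 hS2 (fun y hy z hz => hclass y (hS3 y hy) z (hS3 z hz)) hS4 hx' hb
          (hbw.trans hv)
    -- optimal sets are small
    have hC2 : ∀ x ∈ s, ∀ b ⊆ I p, SeqP G I P m (δ + 1) p ρ x b → Small (G.lo p) m b := by
      rintro x hx b hb ⟨S, h1, h2, h3, h4, h5⟩
      have hn := hP S h1 h2 (fun y hy => (h3 y hy).trans (hsv x hx))
      simp only [trav, not_not] at hn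
      refine hn.subset ?_
      intro j hj
      exact Finset.mem_filter.mpr ⟨hb hj, h5 j hj⟩
    -- monotonicity of the values along s
    have hC3 : ∀ x ∈ s, ∀ y ∈ s, x < y →
        val G I P m (δ + 1) p ρ x ≤ val G I P m (δ + 1) p ρ y := by
      intro x hx y hy hxy
      have h1 := hs x hx y hy hxy
      have h2 : ¬ proc G I P m d (h + 1) (δ + 1) p ρ x < proc G I P m d (h + 1) (δ + 1) p ρ y :=
        fun hlt => hL x y hlt h1
      have hρxy : ρ y = ρ x := (hsv y hy).trans (hsv x hx).symm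
      rw [← upd_le_iff (P := P) (m := m) (δ := δ + 1) hI' hρxy]
      by_contra h3
      apply h2
      -- proc refines upd
      have hupd : OK P (upd G I P m (δ + 1) p ρ) (G.lo p * 2 ^ G.Mx p) :=
        ⟨upd_mono hI' htr hρ.mono, upd_lt hρ.lt⟩
      have := fold_lemma (P := P) (fun j ρ => proc G I P m d h (nx d (δ + 1)) (G.child p j) ρ) hp
        (fun j _ ρ hρ => proc_ok hI' htr h (nx d (δ + 1)) (G.child p j) ρ
          (by rw [G.lvl_child]; omega) hρ)
        ((I p).sort (· ≤ ·)) (Finset.sortedLT_sort (I p)).pairwise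
        (fun j hj => Finset.mem_range.mp (hI' p ((Finset.mem_sort _).mp hj)))
        (upd G I P m (δ + 1) p ρ) _ hupd
        (fun j hj => G.g1 p j hp (Finset.mem_range.mp (hI' p ((Finset.mem_sort _).mp hj))))
        (G.g1' p hp)
      exact this.2.1 x y (not_le.mp h3)
    -- conclusion
    apply htrav
    set X := (I p).filter fun j => trav G I (m + (δ + 1)) δ (G.child p j) s with hX
    have hsel : ∀ j : ℕ, ∃ x : ℕ, ∃ b : Finset ℕ, j ∈ X → (x ∈ s ∧ G.lo (G.child p j) ≤ x ∧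
        x < G.hi (G.child p j) ∧ b ⊆ I p ∧ wt (G.Mx p) b = val G I P m (δ + 1) p ρ x ∧
        j ∈ b ∧ Small (G.lo p) m b) := by
      intro j
      by_cases hj : j ∈ X
      · rw [hX, Finset.mem_filter] at hj
        obtain ⟨x, hx, h1, h2, h3⟩ := hC1 j hj.1 hj.2
        obtain ⟨b, hb, hseq, hbw⟩ := exists_val (G := G) (I := I) (P := P) (m := m) (δ + 1) p ρ x
        exact ⟨x, b, fun _ => ⟨hx, h1, h2, hb, hbw, h3 b hb hbw, hC2 x hx b hb hseq⟩⟩
      · exact ⟨0, ∅, fun h => absurd h hj⟩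
    choose xs bs hxb using hsel
    have hsm : Small (G.lo p) (m + 1) X := by
      refine small_kb bs (fun j hj => ⟨(hxb j hj).2.2.2.2.2.1, (hxb j hj).2.2.2.2.2.2⟩) ?_
      intro i hi j hj hij
      obtain ⟨a1, a2, a3, a4, a5, -, -⟩ := hxb i hi
      obtain ⟨b1, b2, b3, b4, b5, -, -⟩ := hxb j hj
      have hjr : j < G.Mx p := by
        rw [hX, Finset.mem_filter] at hj
        exact Finset.mem_range.mp (hI' p hj.1)
      have hlt : xs i < xs j := by
        have := G.g2 p i j hp hij hjr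
        omega
      refine KBle_of_wt_le (a4.trans (hI' p)) (b4.trans (hI' p)) ?_
      rw [a5, b5]
      exact hC3 _ a1 _ b1 hlt
    exact hsm.mono (G.lo_pos p) (by omega)

/-- descendants at depth `t` -/
def Desc (G : Geo) (I : ℕ → Finset ℕ) : ℕ → ℕ → ℕ → Prop
  | 0, p, q => p = q
  | t + 1, p, q => ∃ j ∈ I p, Desc G I t (G.child p j) q

theorem Desc.lvl {t : ℕ} : ∀ {p q : ℕ}, Desc G I t p q → G.lvl q = G.lvl p - t := by
  induction t with
  | zero => rintro p q rfl; simp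
  | succ t ih =>
    rintro p q ⟨j, _, hq⟩
    rw [ih hq, G.lvl_child]; omega

theorem Desc.trans {t : ℕ} : ∀ {u p q r : ℕ}, Desc G I t p q → Desc G I u q r →
    Desc G I (t + u) p r := by
  induction t with
  | zero => rintro u p q r rfl h; simpa using h
  | succ t ih =>
    rintro u p q r ⟨j, hj, hq⟩ h
    have := ih hq h
    rw [Nat.add_right_comm]
    exact ⟨j, hj, this⟩

theorem reach (hI' : ∀ p, I p ⊆ Finset.range (G.Mx p))
    (htr : ∀ x y z, P x y → P y z → P x z) :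
    ∀ (t h δ p q : ℕ) (ρ : ℕ → ℕ), t ≤ h → h ≤ G.lvl p → OK P ρ (G.lo p) →
      Desc G I t p q → ∃ ρq, OK P ρq (G.lo q) ∧
        Refines (proc G I P m d h δ p ρ) (proc G I P m d (h - t) ((nx d)^[t] δ) q ρq) := by
  intro t
  induction t with
  | zero =>
    rintro h δ p q ρ _ _ hρ rfl
    exact ⟨ρ, hρ, by simpa using Refines.refl _⟩
  | succ t ih =>
    rintro h δ p q ρ hth hhl hρ ⟨j, hj, hq⟩
    obtain ⟨h, rfl⟩ : ∃ h', h = h' + 1 := ⟨h - 1, by omega⟩
    obtain ⟨ρj, hok, -, href⟩ := proc_child (m := m) (d := d) (δ := δ) hI' htr hhl hρ hj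
    obtain ⟨ρq, hokq, hrefq⟩ := ih h (nx d δ) (G.child p j) q ρj (by omega)
      (by rw [G.lvl_child]; omega) hok hq
    refine ⟨ρq, hokq, ?_⟩
    rw [Function.iterate_succ_apply]
    have : h + 1 - (t + 1) = h - t := by omega
    rw [this]
    exact href.trans hrefq

theorem trav_desc {t : ℕ} : ∀ {δ p : ℕ} {S : Set ℕ}, trav G I m (δ + t) p S →
    ∃ q, Desc G I t p q ∧ trav G I m δ q S := by
  induction t with
  | zero => intro δ p S h; exact ⟨p, rfl, h⟩
  | succ t ih =>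
    intro δ p S h
    obtain ⟨j, hj, hj'⟩ := trav_child (δ := δ + t) h
    obtain ⟨q, hq, hq'⟩ := ih hj'
    exact ⟨q, ⟨j, hj, hq⟩, hq'⟩

theorem nx_range (hd : 1 ≤ d) (t : ℕ) : ∀ δ, 1 ≤ δ → δ ≤ d →
    1 ≤ (nx d)^[t] δ ∧ (nx d)^[t] δ ≤ d := by
  induction t with
  | zero => intro δ h1 h2; exact ⟨h1, h2⟩
  | succ t ih =>
    intro δ h1 h2
    rw [Function.iterate_succ_apply]
    apply ih <;> unfold nx <;> split_ifs <;> omega

theorem nx_back : ∀ δ, 1 ≤ δ → (nx d)^[δ] δ = d := by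
  intro δ
  induction δ with
  | zero => intro h; omega
  | succ δ ih =>
    intro _
    rcases Nat.eq_zero_or_pos δ with h | h
    · subst h; simp [nx]
    · rw [Function.iterate_succ_apply]
      have : nx d (δ + 1) = δ := by unfold nx; split_ifs <;> omega
      rw [this]
      exact ih h

/-- **Theorem F.** -/
theorem exists_linear (hd : 1 ≤ d) (hI' : ∀ p, I p ⊆ Finset.range (G.Mx p))
    (htr : ∀ x y z, P x y → P y z → P x z) (hrefl : ∀ x, P x x)
    (hanti : ∀ x y, P x y → P y x → x = y) (p : ℕ)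
    (hP : ∀ t q, Desc G I t p q → d ≤ G.lvl q → ∀ S, IsCh P S → ¬ trav G I m d q S) :
    ∃ L : ℕ → ℕ → Prop, (∀ x, L x x) ∧ (∀ x y z, L x y → L y z → L x z) ∧
      (∀ x y, L x y → L y x → x = y) ∧ (∀ x y, L x y ∨ L y x) ∧ (∀ x y, P x y → L x y) ∧
      ∀ t q, t ≤ G.lvl p → Desc G I t p q → 2 * d ≤ G.lvl q → ∀ s, IsCh L s →
        ¬ trav G I (m + d + 1) (2 * d) q s := by
  -- linear extension of P
  have : IsPartialOrder ℕ P := { refl := hrefl, trans := htr, antisymm := hanti }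
  obtain ⟨L0, hL0, hPL0⟩ := extend_partialOrder P
  set ρf := proc G I P m d (G.lvl p) d p (fun _ => 0) with hρf
  have hok0 : OK P (fun _ => 0) (G.lo p) := ⟨fun _ _ _ => le_refl _, fun _ => G.lo_pos p⟩
  obtain ⟨hokf, -⟩ := proc_ok (m := m) (d := d) hI' htr (G.lvl p) d p (fun _ => 0)
    (le_refl _) hok0
  refine ⟨fun x y => ρf x < ρf y ∨ (ρf x = ρf y ∧ L0 x y), ?_, ?_, ?_, ?_, ?_, ?_⟩
  · intro x; exact Or.inr ⟨rfl, hL0.refl x⟩
  · rintro x y z (h1 | ⟨h1, h1'⟩) (h2 | ⟨h2, h2'⟩)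
    · exact Or.inl (lt_trans h1 h2)
    · exact Or.inl (h2 ▸ h1)
    · exact Or.inl (h1 ▸ h2)
    · exact Or.inr ⟨h1.trans h2, hL0.trans x y z h1' h2'⟩
  · rintro x y (h1 | ⟨h1, h1'⟩) (h2 | ⟨h2, h2'⟩)
    · exact absurd h1 (not_lt_of_gt h2)
    · exact absurd h1 (by omega)
    · exact absurd h2 (by omega)
    · exact hL0.antisymm x y h1' h2'
  · intro x y
    rcases lt_trichotomy (ρf x) (ρf y) with h | h | h
    · exact Or.inl (Or.inl h)
    · rcases hL0.total x y with h' | h'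
      · exact Or.inl (Or.inr ⟨h, h'⟩)
      · exact Or.inr (Or.inr ⟨h.symm, h'⟩)
    · exact Or.inr (Or.inl h)
  · intro x y hxy
    rcases eq_or_lt_of_le (hokf.mono x y hxy) with h | h
    · exact Or.inr ⟨h, hPL0 x y hxy⟩
    · exact Or.inl h
  · intro t q htl hq hlq s hs htrav
    -- find the group root
    set δ := (nx d)^[t] d with hδ
    have hδr := nx_range hd t d hd (le_refl d)
    obtain ⟨u, hu1, hu2⟩ : ∃ u, u < d ∧ (nx d)^[t + u] d = d := by
      by_cases h : δ = d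
      · exact ⟨0, by omega, by simpa using h⟩
      · refine ⟨δ, by omega, ?_⟩
        rw [Nat.add_comm, Function.iterate_add_apply]
        exact nx_back δ hδr.1
    have h2d : 2 * d = (2 * d - u) + u := by omega
    rw [h2d] at htrav
    obtain ⟨q', hq', htrav'⟩ := trav_desc htrav
    have hlq' : G.lvl q' = G.lvl q - u := hq'.lvl
    have hdesc : Desc G I (t + u) p q' := hq.trans hq'
    have htrd : trav G I (m + d + 1) d q' s :=
      trav_le hI' (by omega) (by omega) htrav'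
    have hlqt : G.lvl q = G.lvl p - t := hq.lvl
    obtain ⟨ρq, hokq, hrefq⟩ := reach (m := m) (d := d) hI' htr (t + u) (G.lvl p) d p q'
      (fun _ => 0) (by omega) (le_refl _) hok0 hdesc
    rw [hu2] at hrefq
    obtain ⟨v, hv, htv⟩ := trav_split (ρ := ρq) hI' d q' s (by omega) (le_refl _)
      (fun x _ _ _ => hokq.lt x) htrd
    refine claimA (P := P) (m := m) (d := d) hI' htr hrefl
      (fun x y => ρf x < ρf y ∨ (ρf x = ρf y ∧ L0 x y)) d hd
      (G.lvl p - (t + u)) q' ρq v (by omega) (by omega) hokq ?_ ?_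
      ((s ∩ {x | ρq x = v}) ∩ {x | G.lo q' ≤ x ∧ x < G.hi q'}) ?_ ?_ ?_ ?_
    · intro x y hxy hyx
      have h1 := hrefq x y hxy
      rcases hyx with h | ⟨h, -⟩
      · exact absurd h1 (not_lt_of_gt h)
      · have h' : ρf y = ρf x := h
        rw [hρf] at h'
        exact absurd h1 (by rw [h']; exact lt_irrefl _)
    · intro S hS _ _
      exact hP (t + u) q' hdesc (by omega) S hS
    · intro a ha b hb hab
      exact hs a ha.1.1 b hb.1.1 hab
    · intro y hy; exact hy.2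
    · intro y hy; exact hy.1.2
    · exact trav_mono (fun _ => Finset.Subset.refl _) hI' (le_refl _) _ _ _ _ (by omega)
        (fun y hy h1 h2 => ⟨hy, h1, h2⟩) htv

end Pool.Agent.Helper42.Ext
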