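import Mathlib
import Pool.Agent.Helper42.Ext.ThmF

/-! The concrete geometry (for MP_9b0a74_lc). -/

namespace Pool.Agent.Helper42.Ext

open scoped Classical

theorem Small.width {N N' : ℕ} (hN : N ≤ N') : ∀ {k : ℕ} {X : Finset ℕ}, Small N k X →
    Small N' k X := by
  intro k
  induction k with
  | zero => intro X h; exact h
  | succ k ih =>
    rintro X (⟨F, hF, hX⟩ | ⟨b, hb, hX⟩)
    · refine Or.inl ⟨fun c => if c < N then F c else ∅, ?_, ?_⟩
      · intro c _
        dsimp only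
        split_ifs with h
        · exact ih (hF c h)
        · exact small_empty _ _
      · intro x hx
        obtain ⟨c, hc, hxc⟩ := hX x hx
        exact ⟨c, lt_of_lt_of_le hc hN, by simp [hc, hxc]⟩
    · exact Or.inr ⟨b, fun j hj => ⟨(hb j hj).1, ih (hb j hj).2⟩, hX⟩

/-- number of labels at a node starting at `a` -/
noncomputable def Mlab (r a : ℕ) : ℕ := Nat.find (exists_range_not_small a r)

theorem Mlab_spec (r a : ℕ) : ¬ Small a r (Finset.range (Mlab r a)) :=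
  Nat.find_spec (exists_range_not_small a r)

theorem Mlab_pos (r a : ℕ) : 1 ≤ Mlab r a := by
  by_contra h
  have h0 : Mlab r a = 0 := by omega
  have := Mlab_spec r a
  rw [h0] at this
  exact this (small_empty _ _)

theorem Mlab_mono (r : ℕ) {a b : ℕ} (h : a ≤ b) : Mlab r a ≤ Mlab r b :=
  Nat.find_min' _ (fun hs => Mlab_spec r b (Small.width h hs))

/-- end of a node of level `ℓ` starting at `a` -/
noncomputable def Hend (r : ℕ) : ℕ → ℕ → ℕ
  | 0, a => a + 1
  | ℓ + 1, a => (Hend r ℓ)^[Mlab r a] (a * 2 ^ Mlab r a)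

theorem iter_le {f : ℕ → ℕ} (hf : ∀ x, x ≤ f x) : ∀ (k : ℕ) (x : ℕ), x ≤ f^[k] x := by
  intro k
  induction k with
  | zero => intro x; exact le_refl _
  | succ k ih => intro x; rw [Function.iterate_succ_apply]; exact le_trans (hf x) (ih _)

theorem iter_mono_k {f : ℕ → ℕ} (hf : ∀ x, x ≤ f x) {k l : ℕ} (h : k ≤ l) (x : ℕ) :
    f^[k] x ≤ f^[l] x := by
  obtain ⟨t, rfl⟩ := Nat.exists_eq_add_of_le h
  rw [Nat.add_comm, Function.iterate_add_apply]
  exact iter_le hf t _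

theorem le_Hend (r ℓ : ℕ) : ∀ a, a ≤ Hend r ℓ a := by
  induction ℓ with
  | zero => intro a; simp [Hend]
  | succ ℓ ih =>
    intro a
    simp only [Hend]
    exact le_trans (Nat.le_mul_of_pos_right _ (by positivity)) (iter_le ih _ _)

theorem lt_Hend (r ℓ : ℕ) {a : ℕ} (ha : 1 ≤ a) : a < Hend r ℓ a := by
  cases ℓ with
  | zero => simp [Hend]
  | succ ℓ =>
    simp only [Hend]
    have h1 : a * 2 ^ Mlab r a ≤ (Hend r ℓ)^[Mlab r a] (a * 2 ^ Mlab r a) :=
      iter_le (le_Hend r ℓ) _ _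
    have h2 : 2 ≤ 2 ^ Mlab r a := by
      calc 2 = 2 ^ 1 := rfl
        _ ≤ 2 ^ Mlab r a := Nat.pow_le_pow_right (by norm_num) (Mlab_pos r a)
    nlinarith

theorem Hend_mono (r ℓ : ℕ) : Monotone (Hend r ℓ) := by
  induction ℓ with
  | zero => intro a b h; simp only [Hend]; omega
  | succ ℓ ih =>
    intro a b h
    simp only [Hend]
    refine le_trans (iter_mono_k (le_Hend r ℓ) (Mlab_mono r h) _) (ih.iterate _ ?_)
    exact Nat.mul_le_mul h (Nat.pow_le_pow_right (by norm_num) (Mlab_mono r h))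

theorem Hend_succ_ge (r ℓ a : ℕ) : Hend r ℓ a ≤ Hend r (ℓ + 1) a := by
  have h1 : Hend r ℓ a ≤ Hend r ℓ (a * 2 ^ Mlab r a) :=
    Hend_mono r ℓ (Nat.le_mul_of_pos_right _ (by positivity))
  refine le_trans h1 ?_
  exact iter_mono_k (le_Hend r ℓ) (Mlab_pos r a) (a * 2 ^ Mlab r a)

theorem Hend_mono_lvl (r : ℕ) {ℓ ℓ' : ℕ} (h : ℓ ≤ ℓ') (a : ℕ) : Hend r ℓ a ≤ Hend r ℓ' a := by
  induction ℓ', h using Nat.le_induction with
  | base => exact le_refl _
  | succ n _ ih => exact le_trans ih (Hend_succ_ge r n a)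

/-- start of the `j`-th child -/
noncomputable def cst (r ℓ a j : ℕ) : ℕ := (Hend r (ℓ - 1))^[j] (a * 2 ^ Mlab r a)

theorem cst_ge (r ℓ a j : ℕ) : a * 2 ^ Mlab r a ≤ cst r ℓ a j := iter_le (le_Hend _ _) _ _

theorem cst_pos (r ℓ : ℕ) {a : ℕ} (ha : 1 ≤ a) (j : ℕ) : 1 ≤ cst r ℓ a j :=
  le_trans ha (le_trans (Nat.le_mul_of_pos_right _ (by positivity)) (cst_ge r ℓ a j))

theorem cst_succ (r ℓ a j : ℕ) : Hend r (ℓ - 1) (cst r ℓ a j) = cst r ℓ a (j + 1) := by
  unfold cst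
  rw [Function.iterate_succ_apply']

/-- The geometry with smallness rank `r`.  Node code: `pair level (start - 1)`. -/
noncomputable def geo (r : ℕ) : Geo where
  child p j := Nat.pair ((Nat.unpair p).1 - 1)
    (cst r (Nat.unpair p).1 ((Nat.unpair p).2 + 1) j - 1)
  lvl p := (Nat.unpair p).1
  lo p := (Nat.unpair p).2 + 1
  hi p := Hend r (Nat.unpair p).1 ((Nat.unpair p).2 + 1)
  Mx p := Mlab r ((Nat.unpair p).2 + 1)
  lo_pos p := by omega
  lo_le_hi p := lt_Hend _ _ (by omega)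
  lvl_child p j := by simp
  g1 p j hp hj := by
    have h1 := cst_pos r (Nat.unpair p).1 (a := (Nat.unpair p).2 + 1) (by omega) j
    have h2 := cst_ge r (Nat.unpair p).1 ((Nat.unpair p).2 + 1) j
    simp only [Nat.unpair_pair]
    omega
  g1' p hp := by
    obtain ⟨ℓ, hℓ⟩ : ∃ ℓ, (Nat.unpair p).1 = ℓ + 1 := ⟨(Nat.unpair p).1 - 1, by omega⟩
    rw [hℓ]
    exact iter_le (le_Hend _ _) _ _
  g2 p i j hp hij hj := by
    have h1 := cst_pos r (Nat.unpair p).1 (a := (Nat.unpair p).2 + 1) (by omega) i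
    have h2 := cst_pos r (Nat.unpair p).1 (a := (Nat.unpair p).2 + 1) (by omega) j
    simp only [Nat.unpair_pair]
    rw [Nat.sub_add_cancel h1, Nat.sub_add_cancel h2, cst_succ]
    exact iter_mono_k (le_Hend _ _) (by omega) _
  g3 p j hp hj := by
    have h1 := cst_pos r (Nat.unpair p).1 (a := (Nat.unpair p).2 + 1) (by omega) j
    simp only [Nat.unpair_pair]
    rw [Nat.sub_add_cancel h1, cst_succ]
    obtain ⟨ℓ, hℓ⟩ : ∃ ℓ, (Nat.unpair p).1 = ℓ + 1 := ⟨(Nat.unpair p).1 - 1, by omega⟩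
    rw [hℓ]
    simp only [Hend, cst, Nat.add_sub_cancel]
    exact iter_mono_k (le_Hend _ _) (by omega) _

theorem geo_hi (r p : ℕ) : (geo r).hi p = Hend r ((geo r).lvl p) ((geo r).lo p) := rfl

theorem geo_not_small (r p : ℕ) : ¬ Small ((geo r).lo p) r (Finset.range ((geo r).Mx p)) :=
  Mlab_spec _ _

end Pool.Agent.Helper42.Ext
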