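import Mathlib
import Pool.Agent.Helper42.Ext.Cut

/-! The model of a semiregular cut satisfies `RCA₀` (for MP_9b0a74_lc). -/

namespace Pool.Agent.Helper42.Ext

open scoped Classical
open Pool.Agent.Helper42.SOA

/-- truth of `θ` at `xᵢ = x`, `xⱼ = y` with parameters coded by `c` -/
def TT (θ : Form) (i j K c x y : ℕ) : Prop :=
  sN (Function.update (Function.update (untup K (Nat.unpair c).1) i x) j y)
    (untup K (Nat.unpair c).2) θ

def RV (θ : Form) (i j K : ℕ) : ℕ → ℕ → Prop := fun c v =>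
  ∀ y, el v y ↔ (y < (Nat.unpair (Nat.unpair c).2).2 ∧ ∃ x ≤ (Nat.unpair (Nat.unpair c).2).1,
    TT θ i j K (Nat.unpair c).1 x y ∧ ∀ z < y, ¬ TT θ i j K (Nat.unpair c).1 x z)

def RLeast (θ : Form) (i j K : ℕ) : ℕ → ℕ → Prop := fun c x =>
  x ≤ (Nat.unpair (Nat.unpair c).2).1 ∧
  (¬ ∃ y < (Nat.unpair (Nat.unpair c).2).2, TT θ i j K (Nat.unpair c).1 x y) ∧
  ∀ x' < x, ∃ y < (Nat.unpair (Nat.unpair c).2).2, TT θ i j K (Nat.unpair c).1 x' y

def RW (θ : Form) (i j K : ℕ) : ℕ → ℕ → Prop := fun c y =>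
  y < (Nat.unpair (Nat.unpair c).2).2 ∧
    TT θ i j K (Nat.unpair c).1 (Nat.unpair (Nat.unpair c).2).1 y

def RPred : ℕ → ℕ → Prop := fun x y => y + 1 = x

def RComp (θ ψ : Form) (i j k K : ℕ) : ℕ → ℕ → Prop := fun c v =>
  ∀ x, el v x ↔ (x < (Nat.unpair c).2 ∧ ∃ y < (Nat.unpair c).2,
    TT θ i j K (Nat.unpair c).1 x y ∧ ∀ z < y, TT ψ i k K (Nat.unpair c).1 x z)

def RW2 (θ ψ : Form) (i j k K : ℕ) : ℕ → ℕ → Prop := fun c y =>
  y < (Nat.unpair (Nat.unpair c).2).2 ∧
    TT θ i j K (Nat.unpair c).1 (Nat.unpair (Nat.unpair c).2).1 y ∧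
    ∀ z < y, TT ψ i k K (Nat.unpair c).1 (Nat.unpair (Nat.unpair c).2).1 z

structure BigC (C : Set (ℕ → ℕ → Prop)) : Prop where
  wit : ∀ φ i t K, RWit φ i t K ∈ C
  rv : ∀ θ i j K, RV θ i j K ∈ C
  least : ∀ θ i j K, RLeast θ i j K ∈ C
  w : ∀ θ i j K, RW θ i j K ∈ C
  pred : RPred ∈ C
  comp : ∀ θ ψ i j k K, RComp θ ψ i j k K ∈ C
  w2 : ∀ θ ψ i j k K, RW2 θ ψ i j k K ∈ C

/-- A semiregular cut. -/
structure SemiReg (A : Set (ℕ → ℕ)) (l : ℕ → ℕ → ℕ) (B : ℕ → ℕ) : Prop where
  memA : ∀ k, l k ∈ A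
  memB : B ∈ A
  leB : ∀ k, ae (fun n => l k n ≤ B n)
  sr : ∀ V ∈ A, ∀ k, ae (fun n => ∃ s : Finset ℕ, s.card ≤ l k n ∧ ∀ y, el (V n) y → y ∈ s) →
    ∃ k', ∃ u : ℕ → ℕ, (∀ k'', ae (fun n => l k'' n ≤ u n)) ∧
      ae (fun n => ∀ y, el (V n) y → y < l k' n ∨ u n ≤ y)

variable {A : Set (ℕ → ℕ)} {C : Set (ℕ → ℕ → Prop)} {l : ℕ → ℕ → ℕ} {B : ℕ → ℕ}

theorem sat_ex (M : Model) (e : ℕ → M.N) (E : ℕ → Set M.N) (j : ℕ) (θ : Form) :
    M.Sat e E (.ex j θ) ↔ ∃ b, M.Sat (Function.update e j b) E θ := by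
  simp [Form.ex, Model.Sat]

/-- coded parameters for finitely many formulas -/
theorem exists_param (h : CutOK A C l) {e : ℕ → Num A l} {E : ℕ → Set (Num A l)}
    {f F : ℕ → ℕ → ℕ} (hr : Repr A l e E f F) (θ : Form) :
    ∃ K0, ∀ K ≥ K0, ∃ c ∈ A, ∀ (i j n x y : ℕ),
      (TT θ i j K (c n) x y ↔
        sN (Function.update (Function.update (fun k => f k n) i x) j y) (fun k => F k n) θ) := by
  obtain ⟨K0, hK0⟩ := sN_ext θ
  refine ⟨K0, fun K hK => ?_⟩
  obtain ⟨c1, hc1, hc1'⟩ := exists_tup h.rich f hr.memf K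
  obtain ⟨c2, hc2, hc2'⟩ := exists_tup h.rich F hr.memF K
  refine ⟨_, h.rich.pair c1 hc1 c2 hc2, fun i j n x y => ?_⟩
  unfold TT
  simp only [Nat.unpair_pair]
  refine hK0 _ _ _ _ (fun a ha => ?_) (fun a ha => hc2' n a (by omega))
  by_cases haj : a = j
  · subst haj; simp
  · simp only [Function.update_of_ne haj]
    by_cases hai : a = i
    · subst hai; simp
    · simp only [Function.update_of_ne hai]
      exact hc1' n a (by omega)

theorem exists_param2 (h : CutOK A C l) {e : ℕ → Num A l} {E : ℕ → Set (Num A l)}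
    {f F : ℕ → ℕ → ℕ} (hr : Repr A l e E f F) (θ ψ : Form) :
    ∃ K, ∃ c ∈ A, (∀ (i j n x y : ℕ),
      (TT θ i j K (c n) x y ↔
        sN (Function.update (Function.update (fun k => f k n) i x) j y) (fun k => F k n) θ)) ∧
      (∀ (i j n x y : ℕ),
      (TT ψ i j K (c n) x y ↔
        sN (Function.update (Function.update (fun k => f k n) i x) j y) (fun k => F k n) ψ)) := by
  obtain ⟨K1, hK1⟩ := sN_ext θ
  obtain ⟨K2, hK2⟩ := sN_ext ψ
  obtain ⟨c1, hc1, hc1'⟩ := exists_tup h.rich f hr.memf (max K1 K2)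
  obtain ⟨c2, hc2, hc2'⟩ := exists_tup h.rich F hr.memF (max K1 K2)
  refine ⟨max K1 K2, _, h.rich.pair c1 hc1 c2 hc2, fun i j n x y => ?_, fun i j n x y => ?_⟩
  · unfold TT
    simp only [Nat.unpair_pair]
    refine hK1 _ _ _ _ (fun a ha => ?_)
      (fun a ha => hc2' n a (lt_of_lt_of_le ha (le_max_left _ _)))
    by_cases haj : a = j
    · subst haj; simp
    · simp only [Function.update_of_ne haj]
      by_cases hai : a = i
      · subst hai; simp
      · simp only [Function.update_of_ne hai]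
        exact hc1' n a (lt_of_lt_of_le ha (le_max_left _ _))
  · unfold TT
    simp only [Nat.unpair_pair]
    refine hK2 _ _ _ _ (fun a ha => ?_)
      (fun a ha => hc2' n a (lt_of_lt_of_le ha (le_max_right _ _)))
    by_cases haj : a = j
    · subst haj; simp
    · simp only [Function.update_of_ne haj]
      by_cases hai : a = i
      · subst hai; simp
      · simp only [Function.update_of_ne hai]
        exact hc1' n a (lt_of_lt_of_le ha (le_max_right _ _))

/-- satisfaction at two updated variables -/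
theorem sat_two (h : CutOK A C l) (hC : BigC C) {θ : Form} (hθ : θ.IsBounded)
    {e : ℕ → Num A l} {E : ℕ → Set (Num A l)}
    {f F : ℕ → ℕ → ℕ} (hr : Repr A l e E f F) {K : ℕ} {c : ℕ → ℕ}
    (hc : ∀ (i j n x y : ℕ), (TT θ i j K (c n) x y ↔
        sN (Function.update (Function.update (fun k => f k n) i x) j y) (fun k => F k n) θ))
    (i j : ℕ) {κ μ : Num A l} {g y : ℕ → ℕ} (hg : g ∈ A) (hκ : κ.1 = (g : GN)) (hy : y ∈ A)
    (hμ : μ.1 = (y : GN)) :
    (cutModel h).Sat (Function.update (Function.update e i κ) j μ) E θ ↔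
      ae (fun n => TT θ i j K (c n) (g n) (y n)) := by
  rw [transfer h hC.wit hθ _ E _ F ((hr.update hg hκ i).update hy hμ j)]
  constructor
  · intro hh
    refine hh.mono fun n hn => ?_
    rw [hc]
    rw [update_apply_fun, update_apply_fun] at hn
    exact hn
  · intro hh
    refine hh.mono fun n hn => ?_
    rw [hc] at hn
    rw [update_apply_fun, update_apply_fun]
    exact hn

theorem cut_rca0 (h : CutOK A C l) (hC : BigC C) (hS : SemiReg A l B) :
    (cutModel h).RCA0 := by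
  constructor
  · intro a ha
    obtain ⟨f, -, hf, -⟩ := a.rep
    have := (cm_eq (cm_add h hf (cm_one h)) (cm_zero h)).mp ha
    exact ae_false (this.mono fun n hn => by simp at hn)
  · intro a b hab
    obtain ⟨f, -, hf, -⟩ := a.rep
    obtain ⟨g, -, hg, -⟩ := b.rep
    have := (cm_eq (cm_add h hf (cm_one h)) (cm_add h hg (cm_one h))).mp hab
    exact (cm_eq hf hg).mpr (this.mono fun n hn => Nat.succ_injective hn)
  · intro a
    obtain ⟨f, -, hf, -⟩ := a.rep
    exact (cm_eq (cm_add h hf (cm_zero h)) hf).mpr (ae_of_forall fun n => rfl)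
  · intro a b
    obtain ⟨f, -, hf, -⟩ := a.rep
    obtain ⟨g, -, hg, -⟩ := b.rep
    exact (cm_eq (cm_add h hf (cm_add h hg (cm_one h)))
      (cm_add h (cm_add h hf hg) (cm_one h))).mpr (ae_of_forall fun n => rfl)
  · intro a
    obtain ⟨f, -, hf, -⟩ := a.rep
    exact (cm_eq (cm_mul h hf (cm_zero h)) (cm_zero h)).mpr (ae_of_forall fun n => rfl)
  · intro a b
    obtain ⟨f, -, hf, -⟩ := a.rep
    obtain ⟨g, -, hg, -⟩ := b.rep
    exact (cm_eq (cm_mul h hf (cm_add h hg (cm_one h)))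
      (cm_add h (cm_mul h hf hg) hf)).mpr (ae_of_forall fun n => rfl)
  · intro a ha
    obtain ⟨f, -, hf, -⟩ := a.rep
    have := (cm_lt h hf (cm_zero h)).mp ha
    exact ae_false (this.mono fun n hn => absurd hn (Nat.not_lt_zero _))
  · intro a b
    obtain ⟨f, -, hf, -⟩ := a.rep
    obtain ⟨g, -, hg, -⟩ := b.rep
    rw [cm_lt h hf (cm_add h hg (cm_one h)), cm_lt h hf hg, cm_eq hf hg, ← ae_or]
    exact ⟨fun h => h.mono fun n hn => Nat.lt_succ_iff_lt_or_eq.mp hn,
      fun h => h.mono fun n hn => Nat.lt_succ_iff_lt_or_eq.mpr hn⟩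
  · -- induction
    intro θ hθ i j e E hE h0 hsucc a
    obtain ⟨f, F, hr⟩ := exists_repr (h := h) e E hE
    obtain ⟨K, hK⟩ := exists_param h hr θ
    obtain ⟨c, hcA, hc⟩ := hK K (le_refl _)
    by_contra hno
    obtain ⟨g, hg, hκ, hgb⟩ := a.rep
    simp only [sat_ex] at h0 hsucc hno
    -- the set of least witnesses
    obtain ⟨V, hV, hVs⟩ := h.rich.sk _ (hC.rv θ i j K) _
      (h.rich.pair c hcA _ (h.rich.pair g hg B hS.memB)) (ae_of_forall fun n => by
        obtain ⟨v, hv⟩ := exists_code (B n) (fun y => ∃ x ≤ g n,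
          TT θ i j K (c n) x y ∧ ∀ z < y, ¬ TT θ i j K (c n) x z)
        refine ⟨v, fun y => ?_⟩
        simp only [Nat.unpair_pair]
        exact hv y)
    obtain ⟨k, hk⟩ := hgb
    obtain ⟨k', u, hu, hk'⟩ := hS.sr V hV k (by
      refine (hVs.and hk).mono ?_
      rintro n ⟨h1, h2⟩
      let lw : ℕ → ℕ := fun x => if hx : ∃ y, TT θ i j K (c n) x y then Nat.find hx else 0
      refine ⟨(Finset.range (g n + 1)).image lw, ?_, ?_⟩
      · refine le_trans Finset.card_image_le ?_
        rw [Finset.card_range]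
        exact h2
      · intro y hy
        have := (h1 y).mp hy
        simp only [Nat.unpair_pair] at this
        obtain ⟨-, x, hx, hxy, hmin⟩ := this
        rw [Finset.mem_image]
        refine ⟨x, Finset.mem_range.mpr (by omega), ?_⟩
        have hex : ∃ y, TT θ i j K (c n) x y := ⟨y, hxy⟩
        simp only [lw, dif_pos hex]
        refine le_antisymm (Nat.find_min' hex hxy) ?_
        by_contra hlt
        exact hmin _ (not_le.mp hlt) (Nat.find_spec hex))
    -- a witness below `l k'` makes the formula true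
    have hwit : ∀ (μ : Num A l) (x : ℕ → ℕ), x ∈ A → μ.1 = (x : GN) →
        ae (fun n => ∃ y < l k' n, TT θ i j K (c n) (x n) y) →
        ∃ b, (cutModel h).Sat (Function.update (Function.update e i μ) j b) E θ := by
      intro μ x hx hμ hex
      obtain ⟨y, hy, hy'⟩ := h.rich.sk _ (hC.w θ i j K) _
        (h.rich.pair c hcA _ (h.rich.pair x hx (l k') (hS.memA k'))) (by
          refine hex.mono ?_
          rintro n ⟨y, hy1, hy2⟩
          exact ⟨y, by simpa [RW] using ⟨hy1, hy2⟩⟩)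
      have hy'' : ae (fun n => y n < l k' n ∧ TT θ i j K (c n) (x n) (y n)) :=
        hy'.mono fun n hn => by simpa [RW] using hn
      obtain ⟨b, hb⟩ := exists_num (l := l) (inA_of_mem hy) ⟨k', hy''.mono fun n hn => hn.1⟩
      exact ⟨b, (sat_two h hC hθ hr hc i j hx hμ hy hb).mpr (hy''.mono fun n hn => hn.2)⟩
    have hgno : ae (fun n => ¬ ∃ y < l k' n, TT θ i j K (c n) (g n) y) := by
      rw [ae_not]
      intro hex
      exact hno (hwit a g hg hκ hex)
    -- least counterexample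
    obtain ⟨x, hx, hx'⟩ := h.rich.sk _ (hC.least θ i j K) _
      (h.rich.pair c hcA _ (h.rich.pair g hg (l k') (hS.memA k'))) (by
        refine hgno.mono fun n hn => ?_
        have hex : ∃ x, ¬ ∃ y < l k' n, TT θ i j K (c n) x y := ⟨g n, hn⟩
        refine ⟨Nat.find hex, ?_⟩
        simp only [RLeast, Nat.unpair_pair]
        refine ⟨Nat.find_min' hex hn, Nat.find_spec hex, fun x' hx' => ?_⟩
        exact not_not.mp (Nat.find_min hex hx'))
    have hx1 : ae (fun n => x n ≤ g n ∧ (¬ ∃ y < l k' n, TT θ i j K (c n) (x n) y) ∧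
        ∀ x' < x n, ∃ y < l k' n, TT θ i j K (c n) x' y) :=
      hx'.mono fun n hn => by simpa only [RLeast, Nat.unpair_pair] using hn
    obtain ⟨μ, hμ⟩ := exists_num (l := l) (inA_of_mem hx)
      ((Num.bdd hκ).lt (hx1.mono fun n hn => hn.1))
    -- the formula fails at μ
    have hμno : ¬ ∃ b, (cutModel h).Sat (Function.update (Function.update e i μ) j b) E θ := by
      rintro ⟨b, hb⟩
      obtain ⟨y, hy, hby, k2, hk2⟩ := b.rep
      have hb' := (sat_two h hC hθ hr hc i j hx hμ hy hby).mp hb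
      obtain ⟨n, h1, h2, h3, h4, h5, h6, h7⟩ :=
        (hb'.and (hk2.and (hx1.and ((hu k2).and (hVs.and (hk'.and (hS.leB k2))))))).exists
      have hex : ∃ y, TT θ i j K (c n) (x n) y := ⟨y n, h1⟩
      have hle := Nat.find_min' hex h1
      have hmem : el (V n) (Nat.find hex) := by
        rw [h5 (Nat.find hex)]
        simp only [Nat.unpair_pair]
        refine ⟨by omega, x n, h3.1, Nat.find_spec hex, fun z hz => Nat.find_min hex hz⟩
      rcases h6 _ hmem with h8 | h8
      · exact h3.2.1 ⟨_, h8, Nat.find_spec hex⟩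
      · omega
    -- μ ≠ 0
    have hμ0 : ae (fun n => 1 ≤ x n) := by
      by_contra hcon
      rw [← ae_not] at hcon
      have : μ = (cutModel h).zero := (cm_eq hμ (cm_zero h)).mpr (hcon.mono fun n hn => by omega)
      rw [this] at hμno
      exact hμno h0
    obtain ⟨x', hx'A, hxx'⟩ := h.rich.sk _ hC.pred x hx (hμ0.mono fun n hn =>
      ⟨x n - 1, by simp only [RPred]; omega⟩)
    obtain ⟨ν, hν⟩ := exists_num (l := l) (inA_of_mem hx'A)
      ((Num.bdd hμ).lt (hxx'.mono fun n hn => by simp only [RPred] at hn; omega))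
    have hνμ : (cutModel h).add ν (cutModel h).one = μ :=
      (cm_eq (cm_add h hν (cm_one h)) hμ).mpr (hxx'.mono fun n hn => hn)
    apply hμno
    rw [← hνμ]
    apply hsucc
    apply hwit ν x' hx'A hν
    refine (hx1.and hxx').mono ?_
    rintro n ⟨h1, h2⟩
    simp only [RPred] at h2
    exact h1.2.2 (x' n) (by omega)
  · -- comprehension
    intro θ ψ hθ hψ i j k e E hE hiff
    obtain ⟨f, F, hr⟩ := exists_repr (h := h) e E hE
    obtain ⟨K, c, hcA, hc1, hc2⟩ := exists_param2 h hr θ ψ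
    simp only [sat_ex] at hiff ⊢
    simp only [Model.Sat] at hiff
    obtain ⟨V, hV, hVs⟩ := h.rich.sk _ (hC.comp θ ψ i j k K) _
      (h.rich.pair c hcA B hS.memB) (ae_of_forall fun n => by
        obtain ⟨v, hv⟩ := exists_code (B n) (fun x => ∃ y < B n,
          TT θ i j K (c n) x y ∧ ∀ z < y, TT ψ i k K (c n) x z)
        refine ⟨v, fun y => ?_⟩
        simp only [Nat.unpair_pair]
        exact hv y)
    have hVs' : ae (fun n => ∀ x, el (V n) x ↔ (x < B n ∧ ∃ y < B n,
        TT θ i j K (c n) x y ∧ ∀ z < y, TT ψ i k K (c n) x z)) :=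
      hVs.mono fun n hn => by simpa only [RComp, Nat.unpair_pair] using hn
    refine ⟨coded A l V, ⟨V, hV, rfl⟩, fun a => ?_⟩
    obtain ⟨g, hg, hκ, kg, hkg⟩ := a.rep
    rw [mem_coded hκ]
    constructor
    · intro hel
      by_contra hno
      have hno2 := hno
      rw [hiff a] at hno
      push Not at hno
      obtain ⟨b, hb⟩ := hno
      obtain ⟨z, hz, hbz, kz, hkz⟩ := b.rep
      rw [sat_two h hC hψ hr hc2 i k hg hκ hz hbz, ← ae_not] at hb
      obtain ⟨y, hy, hy'⟩ := h.rich.sk _ (hC.w2 θ ψ i j k K) _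
        (h.rich.pair c hcA _ (h.rich.pair g hg B hS.memB)) (by
          refine (hel.and hVs').mono ?_
          rintro n ⟨h1, h2⟩
          obtain ⟨-, y, hy1, hy2, hy3⟩ := (h2 _).mp h1
          exact ⟨y, by simpa only [RW2, Nat.unpair_pair] using ⟨hy1, hy2, hy3⟩⟩)
      have hy2 : ae (fun n => TT θ i j K (c n) (g n) (y n) ∧ y n ≤ z n) := by
        refine (hy'.and hb).mono ?_
        rintro n ⟨h1, h2⟩
        simp only [RW2, Nat.unpair_pair] at h1
        refine ⟨h1.2.1, ?_⟩
        by_contra h3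
        exact h2 (h1.2.2 (z n) (by omega))
      obtain ⟨b', hb'⟩ := exists_num (l := l) (inA_of_mem hy)
        ((Num.bdd hbz).lt (hy2.mono fun n hn => hn.2))
      exact hno2 ⟨b', (sat_two h hC hθ hr hc1 i j hg hκ hy hb').mpr (hy2.mono fun n hn => hn.1)⟩
    · intro hφ
      have hall := (hiff a).mp hφ
      obtain ⟨b, hb⟩ := hφ
      obtain ⟨y, hy, hby, ky, hky⟩ := b.rep
      have hb' := (sat_two h hC hθ hr hc1 i j hg hκ hy hby).mp hb
      have hz : ae (fun n => ∀ z < y n, TT ψ i k K (c n) (g n) z) := by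
        by_contra hcon
        rw [← ae_not] at hcon
        obtain ⟨z, hz, hz'⟩ := h.rich.sk _ (hC.w (.neg ψ) i k K) _
          (h.rich.pair c hcA _ (h.rich.pair g hg y hy)) (by
            refine hcon.mono fun n hn => ?_
            push Not at hn
            obtain ⟨z, hz1, hz2⟩ := hn
            exact ⟨z, by simpa only [RW, Nat.unpair_pair] using ⟨hz1, hz2⟩⟩)
        have hz2 : ae (fun n => z n < y n ∧ ¬ TT ψ i k K (c n) (g n) (z n)) :=
          hz'.mono fun n hn => by
            simp only [RW, Nat.unpair_pair] at hn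
            exact ⟨hn.1, hn.2⟩
        obtain ⟨b', hb'⟩ := exists_num (l := l) (inA_of_mem hz)
          ((Num.bdd hby).lt (hz2.mono fun n hn => hn.1.le))
        have := (sat_two h hC hψ hr hc2 i k hg hκ hz hb').mp (hall b')
        obtain ⟨n, h1, h2⟩ := (this.and hz2).exists
        exact h2.2 h1
      refine (hVs'.and (hb'.and (hz.and (hkg.and (hky.and ((hS.leB kg).and (hS.leB ky))))))).mono ?_
      rintro n ⟨h1, h2, h3, h4, h5, h6, h7⟩
      rw [h1]
      exact ⟨by omega, y n, by omega, h2, h3⟩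

end Pool.Agent.Helper42.Ext
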