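import Mathlib
import Pool.Agent.Helper42.Ext.Geom
import Pool.Agent.Helper42.Ext.Rich

/-! Thick trees (for MP_9b0a74_lc). -/

namespace Pool.Agent.Helper42.Ext

open scoped Classical

variable {G : Geo} {I I' : ℕ → Finset ℕ} {m d : ℕ}

/-- labels of the children of `p` which lie in the coded set `T` -/
noncomputable def IT (G : Geo) (T p : ℕ) : Finset ℕ :=
  (Finset.range (G.Mx p)).filter fun j => el T (G.child p j)

theorem IT_range (G : Geo) (T p : ℕ) : IT G T p ⊆ Finset.range (G.Mx p) :=
  Finset.filter_subset _ _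

theorem IT_mono {T T' : ℕ} (h : ∀ x, el T' x → el T x) (p : ℕ) : IT G T' p ⊆ IT G T p := by
  intro j hj
  rw [IT, Finset.mem_filter] at hj ⊢
  exact ⟨hj.1, h _ hj.2⟩

theorem Desc.mono (hI : ∀ p, I p ⊆ I' p) {t : ℕ} : ∀ {p q : ℕ}, Desc G I t p q →
    Desc G I' t p q := by
  induction t with
  | zero => intro p q h; exact h
  | succ t ih =>
    rintro p q ⟨j, hj, hq⟩
    exact ⟨j, hI p hj, ih hq⟩

theorem Desc.bounds (hI' : ∀ p, I p ⊆ Finset.range (G.Mx p)) {t : ℕ} :
    ∀ {p q : ℕ}, t ≤ G.lvl p → Desc G I t p q → G.lo p ≤ G.lo q ∧ G.hi q ≤ G.hi p := by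
  induction t with
  | zero => rintro p q - rfl; exact ⟨le_refl _, le_refl _⟩
  | succ t ih =>
    rintro p q ht ⟨j, hj, hq⟩
    have hjr := Finset.mem_range.mp (hI' p hj)
    obtain ⟨h1, h2⟩ := ih (by rw [G.lvl_child]; omega) hq
    exact ⟨le_trans (G.lo_child (by omega) hjr) h1, le_trans h2 (G.g3 p j (by omega) hjr)⟩

/-- The tree `T` below `p` has height `h` and labels not small of rank `k`. -/
noncomputable def Thick (G : Geo) (T : ℕ) : ℕ → ℕ → ℕ → Prop
  | 0, _, _ => True
  | h + 1, k, p => ¬ Small (G.lo p) k (IT G T p) ∧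
      ∀ j ∈ IT G T p, Thick G T h k (G.child p j)

theorem Thick.mono {T : ℕ} {k k' : ℕ} (hk : k' ≤ k) : ∀ {h h' p : ℕ}, h' ≤ h →
    Thick G T h k p → Thick G T h' k' p := by
  intro h
  induction h with
  | zero =>
    intro h' p hh _
    have : h' = 0 := by omega
    subst this
    exact trivial
  | succ h ih =>
    intro h' p hh ht
    cases h' with
    | zero => exact trivial
    | succ h' =>
      exact ⟨fun hs => ht.1 (hs.mono (G.lo_pos p) hk),
        fun j hj => ih (by omega) (ht.2 j hj)⟩

theorem Thick.desc {T k : ℕ} {t : ℕ} : ∀ {h p q : ℕ}, Thick G T (h + t) k p →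
    Desc G (IT G T) t p q → Thick G T h k q := by
  induction t with
  | zero => rintro h p q ht rfl; exact ht
  | succ t ih =>
    rintro h p q ht ⟨j, hj, hq⟩
    exact ih (ht.2 j hj) hq

/-- A set meeting all descendants at depth `d` traverses. -/
theorem Thick.trav {T k : ℕ} (hm : m ≤ k) {S : Set ℕ} : ∀ {d p : ℕ}, Thick G T d k p →
    (∀ q, Desc G (IT G T) d p q → ∃ x ∈ S, G.lo q ≤ x ∧ x < G.hi q) →
    trav G (IT G T) m d p S := by
  intro d
  induction d with
  | zero => intro p _ h; exact h p rfl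
  | succ d ih =>
    intro p ht h hs
    apply ht.1
    refine (hs.mono (G.lo_pos p) hm).subset ?_
    intro j hj
    rw [Finset.mem_filter]
    exact ⟨hj, ih (ht.2 j hj) (fun q hq => h q ⟨j, hj, hq⟩)⟩

/-- The thinned tree of a traversal. -/
theorem thick_of_trav {T T' u q : ℕ} {S : Set ℕ} (hu : u ≤ G.lvl q)
    (hT' : ∀ x, el T' x ↔ (el T x ∧
      Ext.trav G (IT G T) u (u - (G.lvl q - G.lvl x)) x S)) :
    ∀ u' x, u' ≤ u → G.lvl x = G.lvl q - (u - u') → Ext.trav G (IT G T) u u' x S →
      Thick G T' u' u x := by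
  intro u'
  induction u' with
  | zero => intro x _ _ _; exact trivial
  | succ u' ih =>
    intro x hu' hx ht
    have hIT : IT G T' x = (IT G T x).filter
        (fun j => Ext.trav G (IT G T) u u' (G.child x j) S) := by
      ext j
      simp only [IT, Finset.mem_filter, Finset.mem_range]
      rw [hT', G.lvl_child]
      have : u - (G.lvl q - (G.lvl x - 1)) = u' := by omega
      rw [this]
      tauto
    refine ⟨?_, ?_⟩
    · rw [hIT]; exact ht
    · intro j hj
      rw [hIT, Finset.mem_filter] at hj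
      exact ih _ (by omega) (by rw [G.lvl_child]; omega) hj.2

/-- A set with few elements misses a child. -/
theorem exists_child_avoid {p : ℕ} {J : Finset ℕ} (hp : 1 ≤ G.lvl p)
    (hJ : J ⊆ Finset.range (G.Mx p)) {s : Finset ℕ} (hs : s.card < J.card) :
    ∃ j ∈ J, ∀ y ∈ s, ¬ (G.lo (G.child p j) ≤ y ∧ y < G.hi (G.child p j)) := by
  by_contra hno
  push Not at hno
  choose! y hy1 hy2 hy3 using hno
  have : J.card ≤ s.card := by
    refine Finset.card_le_card_of_injOn y (fun j hj => hy1 j hj) ?_
    intro i hi j hj hij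
    have hi' := Finset.mem_range.mp (hJ hi)
    have hj' := Finset.mem_range.mp (hJ hj)
    have a1 := hy2 i hi
    have a2 := hy3 i hi
    have b1 := hy2 j hj
    have b2 := hy3 j hj
    rcases lt_trichotomy i j with h | h | h
    · have := G.g2 p i j hp h hj'; omega
    · exact h
    · have := G.g2 p j i hp h hi'; omega
  omega

/-- Finitely many descendants. -/
theorem desc_finite (G : Geo) (I : ℕ → Finset ℕ) : ∀ (t p : ℕ),
    ∃ B, ∀ q, Desc G I t p q → q < B := by
  intro t
  induction t with
  | zero => intro p; exact ⟨p + 1, by rintro q rfl; omega⟩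
  | succ t ih =>
    intro p
    choose B hB using fun j => ih (G.child p j)
    refine ⟨(I p).sup B + 1, ?_⟩
    rintro q ⟨j, hj, hq⟩
    have h1 := hB j q hq
    have h2 : B j ≤ (I p).sup B := Finset.le_sup hj
    omega

/-- The full tree. -/
theorem exists_full (G : Geo) (p h : ℕ) : ∃ T, ∀ t q, t ≤ h →
    Desc G (fun p => Finset.range (G.Mx p)) t p q → el T q := by
  choose B hB using fun t => desc_finite G (fun p => Finset.range (G.Mx p)) t p
  obtain ⟨T, hT⟩ := exists_code ((Finset.range (h + 1)).sup B) (fun _ => True)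
  refine ⟨T, fun t q ht hq => (hT q).mpr ⟨?_, trivial⟩⟩
  exact lt_of_lt_of_le (hB t q hq)
    (Finset.le_sup (f := B) (Finset.mem_range.mpr (by omega)))

theorem full_thick {r p h T : ℕ} (hT : ∀ t q, t ≤ h →
    Desc (geo r) (fun p => Finset.range ((geo r).Mx p)) t p q → el T q) {k : ℕ} (hk : k ≤ r) :
    ∀ h' t q, t + h' ≤ h → Desc (geo r) (fun p => Finset.range ((geo r).Mx p)) t p q →
      Thick (geo r) T h' k q := by
  intro h'
  induction h' with
  | zero => intro t q _ _; exact trivial
  | succ h' ih =>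
    intro t q ht hq
    have hchild : ∀ j ∈ Finset.range ((geo r).Mx q),
        Desc (geo r) (fun p => Finset.range ((geo r).Mx p)) (t + 1) p ((geo r).child q j) :=
      fun j hj => hq.trans (u := 1) ⟨j, hj, rfl⟩
    have hIT : IT (geo r) T q = Finset.range ((geo r).Mx q) := by
      unfold IT
      rw [Finset.filter_eq_self]
      intro j hj
      exact hT (t + 1) _ (by omega) (hchild j hj)
    refine ⟨?_, ?_⟩
    · rw [hIT]
      intro hs
      exact geo_not_small r q (hs.mono ((geo r).lo_pos q) hk)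
    · intro j hj
      rw [hIT] at hj
      exact ih (t + 1) _ (by omega) (hchild j hj)

end Pool.Agent.Helper42.Ext
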